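import Mathlib

/-! Interface of the project : a positive proportion of the hypersurfaces over the rationals has a
regular projective flat model over the integers (helper802; MP_602153_ag, MP_6a3dac_ag,
MP_4d1008_ag). Each `S_...` is a statement to be proved by one helper in his own file. -/

set_option autoImplicit false

namespace Pool.Agent.Run7.h802.HP

open MvPolynomial

/-- The exponents of the monomials of degree `d` in `X_0, ..., X_(n+1)`. -/
abbrev Mon (n d : ℕ) : Type := {m : Fin (n + 2) → Fin (d + 1) // ∑ i, (m i : ℕ) = d}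

/-- The form of degree `d` with the coefficients `a`. -/
noncomputable def form {R : Type} [CommRing R] {n d : ℕ} (a : Mon n d → R) :
    MvPolynomial (Fin (n + 2)) R :=
  ∑ m, C (a m) * ∏ i, X i ^ ((m.1 i : Fin (d + 1)) : ℕ)

/-- `x` is a singular zero of the form with the coefficients `a`. -/
def Sing {R : Type} [CommRing R] {n d : ℕ} (a : Mon n d → R) (x : Fin (n + 2) → R) : Prop :=
  eval x (form a) = 0 ∧ ∀ i, eval x (pderiv i (form a)) = 0

/-- The determinant of the second partial derivatives with respect to `X_1, ..., X_(n+1)`. -/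
noncomputable def hess {R : Type} [CommRing R] {n d : ℕ} (a : Mon n d → R)
    (x : Fin (n + 2) → R) : R :=
  Matrix.det (Matrix.of fun i j : Fin (n + 1) =>
    eval x (pderiv i.succ (pderiv j.succ (form a))))

/-- SIEVE (Ekedahl). Two polynomials without common factor over `ℚ` have values on an arithmetic
progression (in the box) which rarely have a common prime factor outside `Q`. -/
def S_SIEVE : Prop := ∀ (σ : Type) [Fintype σ] [DecidableEq σ] (h g : MvPolynomial σ ℤ),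
  IsRelPrime (map (Int.castRingHom ℚ) h) (map (Int.castRingHom ℚ) g) →
  ∀ ε : ℝ, 0 < ε → ∃ B : ℕ, ∀ Q : ℕ, 0 < Q → (∀ p : ℕ, p.Prime → p ≤ B → p ∣ Q) →
  ∀ c : σ → ℤ, ∃ H₀ : ℕ, ∀ H : ℕ, H₀ ≤ H →
    (Nat.card {b : σ → ℤ // (∀ i, |b i| ≤ H) ∧ ∃ p : ℕ, p.Prime ∧ ¬ p ∣ Q ∧
      (p : ℤ) ∣ eval (fun i => c i + Q * b i) h ∧
      (p : ℤ) ∣ eval (fun i => c i + Q * b i) g} : ℝ) ≤
        ε * (2 * (H : ℝ) + 1) ^ Fintype.card σ

/-- ELIM (algebra for SIEVE). After the linear change `b ↦ (y + l t, t)` the first polynomial is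
monic up to the constant `e` in the last variable, and `r` is the resultant. -/
def S_ELIM : Prop := ∀ (N : ℕ) (h g : MvPolynomial (Fin (N + 1)) ℤ), h ≠ 0 →
  IsRelPrime (map (Int.castRingHom ℚ) h) (map (Int.castRingHom ℚ) g) →
  ∃ (l : Fin N → ℤ) (D : ℕ) (e : ℤ) (r : MvPolynomial (Fin N) ℤ), e ≠ 0 ∧ r ≠ 0 ∧
    (∀ (R : Type) [CommRing R] (y : Fin N → R) (t : R), aeval y r ∈ Ideal.span
      {aeval (Fin.snoc (α := fun _ => R) (fun i => y i + l i * t) t) h,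
       aeval (Fin.snoc (α := fun _ => R) (fun i => y i + l i * t) t) g}) ∧
    (∀ (k : Type) [Field k] (y : Fin N → k), (e : k) ≠ 0 →
      {t : k | aeval (Fin.snoc (α := fun _ => k) (fun i => y i + l i * t) t) h = 0}.encard ≤ D)

/-- ZERO. The zeros of a nonzero polynomial on an arithmetic progression have density zero. -/
def S_ZERO : Prop := ∀ (σ : Type) [Fintype σ] [DecidableEq σ] (h : MvPolynomial σ ℤ), h ≠ 0 →
  ∀ ε : ℝ, 0 < ε → ∀ Q : ℕ, 0 < Q → ∀ c : σ → ℤ, ∃ H₀ : ℕ, ∀ H : ℕ, H₀ ≤ H →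
    (Nat.card {b : σ → ℤ // (∀ i, |b i| ≤ H) ∧ eval (fun i => c i + Q * b i) h = 0} : ℝ) ≤
      ε * (2 * (H : ℝ) + 1) ^ Fintype.card σ

/-- MIN. A dependent family in a domain of characteristic zero has an irreducible equation `h` with
a partial derivative which does not vanish on it. -/
def S_MIN : Prop := ∀ (σ : Type) [Fintype σ] (A : Type) [CommRing A] [IsDomain A] [CharZero A]
  (α : σ → A), ¬ AlgebraicIndependent ℤ α → ∃ h : MvPolynomial σ ℤ, h ≠ 0 ∧ aeval α h = 0 ∧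
    (∃ m, aeval α (pderiv m h) ≠ 0) ∧
    ∀ g : MvPolynomial σ ℤ, aeval α g ≠ 0 →
      IsRelPrime (map (Int.castRingHom ℚ) h) (map (Int.castRingHom ℚ) g)

/-- DISC. The forms with a singular zero lie on the hypersurface `h = 0`; those whose singular
zeros are not a single rational point with nondegenerate second derivatives lie in addition on
`g = 0`, where `h`, `g` have no common factor. -/
def S_DISC : Prop := ∀ n d : ℕ, 1 ≤ n → 3 ≤ d →
  ∃ (h g : MvPolynomial (Mon n d) ℤ) (r : Fin (n + 2) → MvPolynomial (Mon n d) ℤ),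
    h ≠ 0 ∧ IsRelPrime (map (Int.castRingHom ℚ) h) (map (Int.castRingHom ℚ) g) ∧
    (∀ (k : Type) [Field k] (a : Mon n d → k) (x : Fin (n + 2) → k), x ≠ 0 → Sing a x →
      aeval a h = 0 ∧ (aeval a g ≠ 0 → aeval a (r 0) ≠ 0 ∧ x 0 ≠ 0 ∧
        (∀ i, x i * aeval a (r 0) = x 0 * aeval a (r i)) ∧ (x 0 = 1 → hess a x ≠ 0))) ∧
    (∀ (R : Type) [CommRing R] (a : Mon n d → R) (x : Fin (n + 2) → R), x 0 = 1 →
      aeval a h ∈ Ideal.span (insert (eval x (form a))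
        (Set.range fun i : Fin (n + 1) => eval x (pderiv i.succ (form a)))))

/-- SMOOTH. In every characteristic there is a smooth form. -/
def S_SMOOTH : Prop := ∀ n d : ℕ, 1 ≤ n → 3 ≤ d → ∀ p : ℕ, p.Prime → ∃ a : Mon n d → ℤ,
  ∀ (k : Type) [Field k] [CharP k p] (x : Fin (n + 2) → k), Sing (fun m => ((a m : ℤ) : k)) x →
    x = 0

/-- NEWTON. A nondegenerate critical point modulo `p` lifts to one modulo `p ^ L`. -/
def S_NEWTON : Prop := ∀ (n d : ℕ) (a : Mon n d → ℤ) (p : ℕ), p.Prime →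
  ∀ x₀ : Fin (n + 2) → ℤ, x₀ 0 = 1 →
    (∀ i : Fin (n + 1), (p : ℤ) ∣ eval x₀ (pderiv i.succ (form a))) →
    ¬ (p : ℤ) ∣ hess a x₀ → ∀ L : ℕ,
    ∃ x : Fin (n + 2) → ℤ, x 0 = 1 ∧ (∀ i, (p : ℤ) ∣ x i - x₀ i) ∧
      ∀ i : Fin (n + 1), (p : ℤ) ^ L ∣ eval x (pderiv i.succ (form a))

/-- The generic fibre is smooth. -/
def GenSmooth {n d : ℕ} (a : Mon n d → ℤ) : Prop :=
  ∀ (k : Type) [Field k] [CharZero k] (x : Fin (n + 2) → k),
    Sing (fun m => ((a m : ℤ) : k)) x → x = 0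

/-- Good reduction at `p`. -/
def GoodAt {n d : ℕ} (a : Mon n d → ℤ) (p : ℕ) : Prop :=
  ∀ (k : Type) [Field k] [CharP k p] (x : Fin (n + 2) → k),
    Sing (fun m => ((a m : ℤ) : k)) x → x = 0

/-- The reduction at `p` has a single singular point, which is rational and nondegenerate; `x` is a
lift of it at which the first partial derivatives are divisible by a higher power of `p` than the
value of the form. -/
def NodeAt {n d : ℕ} (a : Mon n d → ℤ) (p : ℕ) : Prop :=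
  ∃ (x : Fin (n + 2) → ℤ) (k : ℕ), 1 ≤ k ∧ x 0 = 1 ∧ (p : ℤ) ^ k ∣ eval x (form a) ∧
    ¬ (p : ℤ) ^ (k + 1) ∣ eval x (form a) ∧
    (∀ i : Fin (n + 1), (p : ℤ) ^ (k + 1) ∣ eval x (pderiv i.succ (form a))) ∧
    ¬ (p : ℤ) ∣ hess a x ∧
    ∀ (κ : Type) [Field κ] [CharP κ p] (y : Fin (n + 2) → κ),
      Sing (fun m => ((a m : ℤ) : κ)) y → ∀ i, y i = y 0 * ((x i : ℤ) : κ)

/-- PTS. The forms outside the exceptional sets. -/
def S_PTS : Prop := ∀ (n d : ℕ) (h g : MvPolynomial (Mon n d) ℤ)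
    (r : Fin (n + 2) → MvPolynomial (Mon n d) ℤ),
    (∀ (k : Type) [Field k] (a : Mon n d → k) (x : Fin (n + 2) → k), x ≠ 0 → Sing a x →
      aeval a h = 0 ∧ (aeval a g ≠ 0 → aeval a (r 0) ≠ 0 ∧ x 0 ≠ 0 ∧
        (∀ i, x i * aeval a (r 0) = x 0 * aeval a (r i)) ∧ (x 0 = 1 → hess a x ≠ 0))) →
    (∀ (R : Type) [CommRing R] (a : Mon n d → R) (x : Fin (n + 2) → R), x 0 = 1 →
      aeval a h ∈ Ideal.span (insert (eval x (form a))
        (Set.range fun i : Fin (n + 1) => eval x (pderiv i.succ (form a))))) →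
    ∀ a : Mon n d → ℤ, eval a h ≠ 0 → GenSmooth a ∧
      ∀ p : ℕ, p.Prime → ¬ ((p : ℤ) ∣ eval a h ∧ (p : ℤ) ∣ eval a g) → GoodAt a p ∨ NodeAt a p

/-- DENS. The counting: `Model` is any property of forms which follows from good or nodal
reduction at all primes. -/
def S_DENS : Prop := ∀ n d : ℕ, 1 ≤ n → 3 ≤ d → ∀ Model : (Mon n d → ℤ) → Prop,
  (∀ a, GenSmooth a → (∀ p : ℕ, p.Prime → GoodAt a p ∨ NodeAt a p) → Model a) →
  (∀ ε : ℝ, 0 < ε → ∃ B : ℕ, ∀ Q : ℕ, 0 < Q → (∀ p : ℕ, p.Prime → p ≤ B → p ∣ Q) →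
    ∀ c : Mon n d → ℤ, (∀ p : ℕ, p.Prime → p ∣ Q → GoodAt c p) → ∃ H₀ : ℕ, ∀ H : ℕ, H₀ ≤ H →
      (1 - ε) * (2 * (H : ℝ) + 1) ^ Fintype.card (Mon n d) ≤
        (Nat.card {b : Mon n d → ℤ // (∀ m, |b m| ≤ H) ∧ Model fun m => c m + Q * b m} : ℝ)) ∧
  ∃ δ : ℝ, 0 < δ ∧ ∃ H₀ : ℕ, ∀ H : ℕ, H₀ ≤ H →
    δ * (2 * (H : ℝ) + 1) ^ Fintype.card (Mon n d) ≤
      (Nat.card {a : Mon n d → ℤ // (∀ m, |a m| ≤ H) ∧ Model a} : ℝ)

end Pool.Agent.Run7.h802.HP
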