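import Pool.Agent.Run7.h802.HP.Arith
import Pool.Agent.Run7.h633.HP.DISC
import Pool.Agent.Run7.h590.HP.MIN
import Pool.Agent.Run7.h882.HP.Newton
import Pool.Agent.Run7.h216.BP.Pts
import Pool.Agent.Run7.h216.BP.Smooth
import Pool.Agent.Run7.h796.HP.DENS
import Pool.Agent.Run7.h468.HP.COUNT
import Pool.Agent.Run7.h468.HP.ZERO
import Pool.Agent.Run7.h115.HP.ELIM

/-! All pieces together (helper115, helper216, helper468, helper590, helper633, helper796,
helper802, helper882). -/

set_option autoImplicit false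

namespace Pool.Agent.Run7.h802.HP

theorem allDens : S_DENS :=
  Pool.Agent.Run7.h796.HP.dens (Pool.Agent.Run7.h468.HP.count Pool.Agent.Run7.h115.HPE.elim)
    Pool.Agent.Run7.h468.HP.ZERO (Pool.Agent.Run7.h633.HP.disc Run7.h590.HP.min)
    Pool.Agent.Run7.h216.BP.smooth (Pool.Agent.Run7.h216.BP.pts Pool.Agent.Run7.h882.HP.newton)

end Pool.Agent.Run7.h802.HP
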