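import Pool.Agent.Run7.h802.HP.NodePts
import Pool.Agent.Run7.h802.HP.Iface
import Pool.Agent.Run7.h216.BP.Form

/-! The local conditions over number fields for forms with integral coefficients. -/

set_option autoImplicit false
set_option linter.unusedSectionVars false
set_option linter.unusedVariables false

open NumberField

namespace Pool.Agent.Run7.h802.HP

open Pool.Agent.H918R2.Quad Pool.Agent.TH214.RM MvPolynomial Pool.Agent.Run7.h216.BP

/-- The form over a ring. -/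
noncomputable def formR (R : Type) [CommRing R] {n d : ℕ} (a : Mon n d → ℤ) :
    MvPolynomial (Fin (n + 2)) R := form fun m => ((a m : ℤ) : R)

theorem formR_eq (R : Type) [CommRing R] {n d : ℕ} (a : Mon n d → ℤ) :
    formR R a = map (Int.castRingHom R) (form a) := form_map (Int.castRingHom R) a

theorem map_formR {R S : Type} [CommRing R] [CommRing S] (f : R →+* S) {n d : ℕ}
    (a : Mon n d → ℤ) : map f (formR R a) = formR S a := by
  have h : f.comp (Int.castRingHom R) = Int.castRingHom S := RingHom.ext_int _ _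
  rw [formR_eq, formR_eq, map_map, h]

theorem formR_hom (R : Type) [CommRing R] {n d : ℕ} (a : Mon n d → ℤ) :
    (formR R a).IsHomogeneous d := form_hom _

theorem sing_of_singP {O κ : Type} [CommRing O] [Field κ] (f : O →+* κ) {n d : ℕ}
    (a : Mon n d → ℤ) (y : Fin (n + 2) → κ) (h : SingP f (formR O a) y) :
    Sing (fun m => ((a m : ℤ) : κ)) y := by
  have h1 : ∀ P : MvPolynomial (Fin (n + 2)) O, eval₂ f y P = eval y (map f P) := fun P =>
    eval₂_eq_eval_map _ _ _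
  have h2 : form (fun m => ((a m : ℤ) : κ)) = map f (formR O a) := (map_formR f a).symm
  refine ⟨?_, fun i => ?_⟩
  · rw [h2, ← h1]
    exact h.1
  · rw [h2, pderiv_map, ← h1]
    exact h.2 i

theorem eval_formR {O : Type} [CommRing O] {n : ℕ} (P : MvPolynomial (Fin (n + 2)) ℤ)
    (x : Fin (n + 2) → ℤ) :
    eval (fun i => ((x i : ℤ) : O)) (map (Int.castRingHom O) P) = ((eval x P : ℤ) : O) :=
  eval_cast (Int.castRingHom O) P x

theorem charP_of {O κ : Type} [CommRing O] [Field κ] (f : O →+* κ) (𝔭 : Ideal O) (p : ℕ)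
    (hp : p.Prime) (hp𝔭 : (p : O) ∈ 𝔭) (hf : ∀ r, f r = 0 ↔ r ∈ 𝔭) : CharP κ p := by
  have h0 : (p : κ) = 0 := by
    have h := (hf p).2 hp𝔭
    rwa [map_natCast] at h
  obtain ⟨q, hq⟩ := CharP.exists κ
  have h1 : q ∣ p := (CharP.cast_eq_zero_iff κ q p).1 h0
  rcases (Nat.dvd_prime hp).1 h1 with h | h
  · exfalso
    rw [h] at hq
    have h2 : ((1 : ℕ) : κ) = 0 := (CharP.cast_eq_zero_iff κ 1 1).2 dvd_rfl
    rw [Nat.cast_one] at h2
    exact one_ne_zero h2
  · rwa [h] at hq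

/-- The powers of a prime of a Dedekind ring containing the multiples of powers of `p`. -/
theorem pow_mem_iff {O : Type} [CommRing O] [IsDedekindDomain O] (𝔭 : Ideal O) [𝔭.IsPrime]
    (h0 : 𝔭 ≠ ⊥) (p : ℤ) (hpO : (p : O) ≠ 0) (hp𝔭 : (p : O) ∈ 𝔭)
    (hw : ∀ w : ℤ, (w : O) ∈ 𝔭 → p ∣ w) :
    ∃ e : ℕ, 1 ≤ e ∧ ∀ (k : ℕ) (c : ℤ), p ^ k ∣ c → ((c : O) ∈ 𝔭 ^ (k * e)) ∧
      (¬ p ^ (k + 1) ∣ c → (c : O) ∉ 𝔭 ^ (k * e + 1)) := by
  have hP : Prime 𝔭 := Ideal.prime_of_isPrime h0 inferInstance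
  have hs : Ideal.span {(p : O)} ≠ ⊥ := by
    rw [Ne, Ideal.span_singleton_eq_bot]
    exact hpO
  have hfin : FiniteMultiplicity 𝔭 (Ideal.span {(p : O)}) := FiniteMultiplicity.of_prime_left hP hs
  have hmem : ∀ (c : O) (N : ℕ), c ∈ 𝔭 ^ N ↔ (N : ℕ∞) ≤ emultiplicity 𝔭 (Ideal.span {c}) := by
    intro c N
    rw [← pow_dvd_iff_le_emultiplicity, Ideal.dvd_span_singleton]
  set e := multiplicity 𝔭 (Ideal.span {(p : O)}) with he
  have hee : emultiplicity 𝔭 (Ideal.span {(p : O)}) = e := hfin.emultiplicity_eq_multiplicity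
  refine ⟨e, ?_, ?_⟩
  · have h1 := (hmem (p : O) 1).1 (by rw [pow_one]; exact hp𝔭)
    rw [hee] at h1
    exact_mod_cast h1
  · rintro k c ⟨w, rfl⟩
    have h1 : Ideal.span {((p ^ k * w : ℤ) : O)} =
        Ideal.span {(p : O)} ^ k * Ideal.span {(w : O)} := by
      rw [Ideal.span_singleton_pow, Ideal.span_singleton_mul_span_singleton]
      push_cast
      rfl
    have h2 : emultiplicity 𝔭 (Ideal.span {((p ^ k * w : ℤ) : O)}) =
        ((k * e : ℕ) : ℕ∞) + emultiplicity 𝔭 (Ideal.span {(w : O)}) := by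
      rw [h1, emultiplicity_mul hP, emultiplicity_pow hP, hee]
      push_cast
      rfl
    refine ⟨?_, ?_⟩
    · rw [hmem, h2]
      exact le_self_add
    · intro hnd
      have hw' : (w : O) ∉ 𝔭 := by
        intro h
        obtain ⟨v, rfl⟩ := hw w h
        exact hnd ⟨v, by ring⟩
      have h3 : emultiplicity 𝔭 (Ideal.span {(w : O)}) = 0 := by
        rw [emultiplicity_eq_zero, Ideal.dvd_span_singleton]
        exact hw'
      rw [hmem, h2, h3, add_zero]
      intro h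
      have h4 : k * e + 1 ≤ k * e := by exact_mod_cast h
      omega

theorem locReg2_of {K : Type} [Field K] [NumberField K] {n d : ℕ} (a : Mon n d → ℤ)
    (h : ∀ p : ℕ, p.Prime → GoodAt a p ∨ NodeAt a p) : LocReg2 (𝓞 K) (formR K a) := by
  intro 𝔭 h𝔭 h0
  have hmax : 𝔭.IsMaximal := Ideal.IsPrime.isMaximal h𝔭 h0
  -- the prime number
  obtain ⟨p, hp, hp𝔭⟩ : ∃ p : ℕ, p.Prime ∧ (p : 𝓞 K) ∈ 𝔭 := by
    have hA : IsDomain (𝓞 K ⧸ 𝔭) := Ideal.Quotient.isDomain 𝔭
    have hfin : Finite (𝓞 K ⧸ 𝔭) := Ideal.finiteQuotientOfFreeOfNeBot 𝔭 h0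
    obtain ⟨q, hq⟩ := CharP.exists (𝓞 K ⧸ 𝔭)
    have hq0 : q ≠ 0 := by
      rintro rfl
      have : CharZero (𝓞 K ⧸ 𝔭) := CharP.charP_to_charZero _
      exact not_injective_infinite_finite (fun n : ℕ => (n : 𝓞 K ⧸ 𝔭)) Nat.cast_injective
    have hqp : q.Prime := (CharP.char_is_prime_or_zero (𝓞 K ⧸ 𝔭) q).resolve_right hq0
    refine ⟨q, hqp, ?_⟩
    have h1 : ((q : ℕ) : 𝓞 K ⧸ 𝔭) = 0 := CharP.cast_eq_zero _ q
    rw [← Ideal.Quotient.eq_zero_iff_mem, map_natCast]
    exact h1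
  have hinj : Function.Injective (algebraMap (𝓞 K) K) := IsFractionRing.injective (𝓞 K) K
  have hint : ∀ w : ℤ, (w : 𝓞 K) ∈ 𝔭 ↔ (p : ℤ) ∣ w := by
    intro w
    constructor
    · intro hw
      by_contra hn
      have hc : IsCoprime (p : ℤ) w :=
        (Prime.coprime_iff_not_dvd (Nat.prime_iff_prime_int.1 hp)).2 hn
      obtain ⟨u, v, huv⟩ := hc
      apply (Ideal.ne_top_iff_one 𝔭).1 h𝔭.ne_top
      have h1 : (1 : 𝓞 K) = (u : 𝓞 K) * (p : 𝓞 K) + (v : 𝓞 K) * (w : 𝓞 K) := by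
        have h2 := congrArg (Int.cast : ℤ → 𝓞 K) huv
        push_cast at h2
        exact h2.symm
      rw [h1]
      exact Ideal.add_mem _ (Ideal.mul_mem_left _ _ hp𝔭) (Ideal.mul_mem_left _ _ hw)
    · rintro ⟨v, rfl⟩
      push_cast
      exact Ideal.mul_mem_right _ _ hp𝔭
  rcases h p hp with hg | ⟨x, k, hk, hx0, h1, h2, h3, h4, h5⟩
  · refine ⟨formR (𝓞 K) a, 1, 1, 1, one_ne_zero, by rw [mul_one], ?_, Or.inl ?_⟩
    · rw [map_formR, C_1, one_mul]
      have h1 : (fun i => ∑ j, C ((1 : Matrix (Fin (n + 2)) (Fin (n + 2)) K) i j) * X j) =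
          (X : Fin (n + 2) → MvPolynomial (Fin (n + 2)) K) := by
        funext i
        rw [Finset.sum_eq_single i]
        · simp
        · intro j _ hj
          rw [Matrix.one_apply_ne (Ne.symm hj), C_0, zero_mul]
        · intro h
          exact absurd (Finset.mem_univ i) h
      rw [h1, aeval_X_left_apply]
    · refine crit_of_points 𝔭 _ d (formR_hom _ a) ?_
      intro κ _ f hf y hy
      have := charP_of f 𝔭 p hp hp𝔭 hf
      exact hg κ y (sing_of_singP f a y hy)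
  · refine ⟨shG (fun i => ((x i : ℤ) : 𝓞 K)) (formR (𝓞 K) a), 1,
      Tm (fun i => algebraMap (𝓞 K) K ((x i : ℤ) : 𝓞 K)),
      Tm (fun i => - algebraMap (𝓞 K) K ((x i : ℤ) : 𝓞 K)), one_ne_zero, Tm_mul _, ?_, Or.inr ?_⟩
    · rw [shG_eq, map_formR]
    · have hpO : ((p : ℤ) : 𝓞 K) ≠ 0 := by
        rw [Int.cast_natCast]
        exact Nat.cast_ne_zero.2 hp.ne_zero
      obtain ⟨e, he, hpow⟩ := pow_mem_iff 𝔭 h0 (p : ℤ) hpO (by rw [Int.cast_natCast]; exact hp𝔭)
        (fun w hw => (hint w).1 hw)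
      have hev : ∀ P : MvPolynomial (Fin (n + 2)) ℤ, eval (fun i => ((x i : ℤ) : 𝓞 K))
          (map (Int.castRingHom (𝓞 K)) P) = ((eval x P : ℤ) : 𝓞 K) := fun P => eval_formR P x
      refine nodeEq_of_points 𝔭 (formR (𝓞 K) a) d (formR_hom _ a)
        (fun i => ((x i : ℤ) : 𝓞 K)) (by rw [hx0, Int.cast_one]) (k * e)
        (Nat.mul_pos hk he) ?_ ?_ ?_ ?_ ?_
      · rw [formR_eq, hev]
        exact (hpow k _ h1).1
      · rw [formR_eq, hev]
        exact (hpow k _ h1).2 h2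
      · intro i
        rw [formR_eq, pderiv_map, hev]
        refine Ideal.pow_le_pow_right ?_ (hpow (k + 1) _ (h3 i)).1
        rw [add_mul]
        omega
      · have h6 : (Matrix.of fun i j : Fin (n + 1) => eval (fun i => ((x i : ℤ) : 𝓞 K))
            (pderiv i.succ (pderiv j.succ (formR (𝓞 K) a)))).det = ((hess a x : ℤ) : 𝓞 K) := by
          unfold hess
          have h7 := RingHom.map_det (Int.castRingHom (𝓞 K))
            (Matrix.of fun i j : Fin (n + 1) => eval x (pderiv i.succ (pderiv j.succ (form a))))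
          rw [eq_intCast] at h7
          rw [h7]
          congr 1
          ext1 i j
          rw [RingHom.mapMatrix_apply, Matrix.map_apply, Matrix.of_apply, Matrix.of_apply,
            formR_eq, pderiv_map, pderiv_map, hev]
          rfl
        rw [h6, hint]
        exact h4
      · intro κ _ f y hf hy i
        have := charP_of f 𝔭 p hp hp𝔭 hf
        rw [map_intCast]
        exact h5 κ y (sing_of_singP f a y hy) i

theorem smooth_of {K : Type} [Field K] [CharZero K] {n d : ℕ} (hd : 1 ≤ d) (a : Mon n d → ℤ)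
    (h : GenSmooth a) : Smooth (formR K a) := by
  refine smooth_of_points (formR K a) d hd (formR_hom _ a) ?_
  intro κ _ f y hy
  have : CharZero κ := charZero_of_injective_ringHom f.injective
  exact h κ y (sing_of_singP f a y hy)

end Pool.Agent.Run7.h802.HP
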