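import Mathlib

/-! Taylor expansion of a polynomial at the origin up to order two. -/

set_option autoImplicit false

namespace Pool.Agent.Run7.h802.HP

open MvPolynomial

/-- The expansion `g(t v) = c + t l(v) + t^2 q(v) + t^3 w` with `w` in the cube of the ideal of the
`v_i`. -/
def Tay {R σ : Type} [CommRing R] [Fintype σ] (g : MvPolynomial σ R) (c : R) (l : σ → R)
    (q : σ → σ → R) : Prop :=
  ∀ (W : Type) [CommRing W] [Algebra R W] (t : W) (v : σ → W),
    ∃ w ∈ Ideal.span (Set.range v) ^ 3, aeval (fun i => t * v i) g =
      algebraMap R W c + t * ∑ i, algebraMap R W (l i) * v i +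
        t ^ 2 * ∑ i, ∑ j, algebraMap R W (q i j) * v i * v j + t ^ 3 * w

theorem tay {R σ : Type} [CommRing R] [Fintype σ] [DecidableEq σ] (g : MvPolynomial σ R) :
    ∃ (c : R) (l : σ → R) (q : σ → σ → R), c = constantCoeff g ∧
      (∀ i, l i = constantCoeff (pderiv i g)) ∧
      (∀ i j, q i j + q j i = constantCoeff (pderiv i (pderiv j g))) ∧ Tay g c l q := by
  induction g using MvPolynomial.induction_on with
  | C a =>
    refine ⟨a, 0, 0, by simp, by simp, by simp, ?_⟩
    intro W _ _ t v
    exact ⟨0, Submodule.zero_mem _, by simp⟩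
  | add p p' hp hp' =>
    obtain ⟨c, l, q, h1, h2, h3, h4⟩ := hp
    obtain ⟨c', l', q', h1', h2', h3', h4'⟩ := hp'
    refine ⟨c + c', fun i => l i + l' i, fun i j => q i j + q' i j, by rw [h1, h1', map_add], ?_,
      ?_, ?_⟩
    · intro i
      simp only [h2, h2', map_add]
    · intro i j
      rw [map_add, map_add, map_add, ← h3, ← h3']
      ring
    · intro W _ _ t v
      obtain ⟨w, hw, e⟩ := h4 W t v
      obtain ⟨w', hw', e'⟩ := h4' W t v
      refine ⟨w + w', Ideal.add_mem _ hw hw', ?_⟩
      rw [map_add, e, e']
      simp only [map_add, add_mul, Finset.sum_add_distrib, mul_add]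
      ring
  | mul_X p k hp =>
    obtain ⟨c, l, q, h1, h2, h3, h4⟩ := hp
    refine ⟨0, fun i => if i = k then c else 0, fun i j => if j = k then l i else 0, by simp, ?_,
      ?_, ?_⟩
    · intro i
      rw [Derivation.leibniz, smul_eq_mul, smul_eq_mul, map_add, map_mul, map_mul, constantCoeff_X,
        zero_mul, add_zero]
      by_cases h : i = k
      · subst h
        simp [h1]
      · rw [pderiv_X_of_ne (Ne.symm h), map_zero, mul_zero]
        exact if_neg h
    · intro i j
      have hX : ∀ i, pderiv i (X k : MvPolynomial σ R) = if i = k then 1 else 0 := by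
        intro i
        by_cases h : i = k
        · subst h
          simp
        · rw [if_neg h, pderiv_X_of_ne (Ne.symm h)]
      rw [Derivation.leibniz, smul_eq_mul, smul_eq_mul, map_add, Derivation.leibniz,
        Derivation.leibniz]
      simp only [smul_eq_mul, hX, map_add, map_mul, constantCoeff_X, h2, h1]
      by_cases hi : i = k <;> by_cases hj : j = k <;> simp [hi, hj]
    · intro W _ _ t v
      obtain ⟨w, hw, e⟩ := h4 W t v
      have hv : ∀ i, v i ∈ Ideal.span (Set.range v) := fun i => Ideal.subset_span ⟨i, rfl⟩
      refine ⟨(∑ i, ∑ j, algebraMap R W (q i j) * v i * v j) * v k + t * (w * v k), ?_, ?_⟩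
      · refine Ideal.add_mem _ ?_ (Ideal.mul_mem_left _ _ (Ideal.mul_mem_right _ _ hw))
        rw [pow_succ, pow_two]
        refine Ideal.mul_mem_mul ?_ (hv k)
        refine Ideal.sum_mem _ fun i _ => Ideal.sum_mem _ fun j _ => ?_
        rw [mul_assoc]
        exact Ideal.mul_mem_left _ _ (Ideal.mul_mem_mul (hv i) (hv j))
      · rw [map_mul, e, aeval_X]
        have e1 : ∑ i, algebraMap R W (if i = k then c else 0) * v i = algebraMap R W c * v k := by
          rw [Finset.sum_eq_single k]
          · rw [if_pos rfl]
          · intro b _ hb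
            rw [if_neg hb, map_zero, zero_mul]
          · intro h
            exact absurd (Finset.mem_univ k) h
        have e2 : ∑ i, ∑ j, algebraMap R W (if j = k then l i else 0) * v i * v j =
            (∑ i, algebraMap R W (l i) * v i) * v k := by
          rw [Finset.sum_mul]
          refine Finset.sum_congr rfl fun i _ => ?_
          rw [Finset.sum_eq_single k]
          · rw [if_pos rfl]
          · intro b _ hb
            rw [if_neg hb, map_zero, zero_mul, zero_mul]
          · intro h
            exact absurd (Finset.mem_univ k) h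
        rw [e1, e2, map_zero]
        ring

end Pool.Agent.Run7.h802.HP
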