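import Pool.Agent.Run7.h802.HP.Core
import Pool.Agent.Run7.h802.HP.Tay

/-! The local rings outside of the node and on the last exceptional divisor. -/

set_option autoImplicit false
set_option linter.unusedSectionVars false
set_option linter.unusedVariables false

namespace Pool.Agent.Run7.h802.HP

open Pool.Agent.H918R2.Quad Pool.Agent.TH214.RM MvPolynomial

theorem nondeg {R σ W : Type} [CommRing R] [Fintype σ] [DecidableEq σ] [CommRing W] [Algebra R W]
    (M : Matrix σ σ R) (hM : IsUnit M.det) (Q : Ideal W) (v : σ → W)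
    (h : ∀ j, ∑ i, algebraMap R W (M i j) * v i ∈ Q) (l : σ) : v l ∈ Q := by
  have h1 : ∑ j, algebraMap R W (M.adjugate j l) * ∑ i, algebraMap R W (M i j) * v i ∈ Q :=
    Ideal.sum_mem _ fun j _ => Ideal.mul_mem_left _ _ (h j)
  have h2 : ∑ j, algebraMap R W (M.adjugate j l) * ∑ i, algebraMap R W (M i j) * v i =
      algebraMap R W M.det * v l := by
    simp only [Finset.mul_sum]
    rw [Finset.sum_comm]
    have h3 : ∀ i, ∑ j, algebraMap R W (M.adjugate j l) * (algebraMap R W (M i j) * v i) =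
        algebraMap R W ((M * M.adjugate) i l) * v i := by
      intro i
      rw [Matrix.mul_apply, map_sum, Finset.sum_mul]
      refine Finset.sum_congr rfl fun j _ => ?_
      rw [map_mul]
      ring
    simp only [h3, Matrix.mul_adjugate]
    rw [Finset.sum_eq_single l]
    · simp
    · intro b _ hb
      simp [hb]
    · intro hl
      exact absurd (Finset.mem_univ l) hl
  rw [h2] at h1
  obtain ⟨u, hu⟩ := hM.map (algebraMap R W)
  rw [← hu] at h1
  have h3 := Ideal.mul_mem_left Q ((u⁻¹ : Wˣ) : W) h1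
  rwa [← mul_assoc, Units.inv_mul, one_mul] at h3

theorem caseA {R F : Type} [CommRing R] [IsDomain R] [IsRegularRing R] [Field F]
    [Algebra R F] (𝒪 : Subring F) (hloc : IsLoc 𝒪)
    (hR : ∀ r : R, algebraMap R F r ∈ 𝒪) (hRU : ∀ r : R, U 𝒪 (algebraMap R F r) → IsUnit r)
    {n : ℕ} (G : MvPolynomial (Fin (n + 2)) R) (hG0 : G ≠ 0) (d : ℕ) (hGd : G.IsHomogeneous d)
    (x : Fin (n + 2) → F) (hrel : aeval x G = 0) (s : Fin (n + 2)) (hs : x s ≠ 0)
    (hx : ∀ i, x i / x s ∈ 𝒪) (j₀ : {i : Fin (n + 2) // i ≠ s})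
    (hind : AlgebraicIndependent R
      (fun i : {i : {i : Fin (n + 2) // i ≠ s} // i ≠ j₀} => x i / x s))
    (hfrac : ∀ y ∈ 𝒪, ∃ a b : MvPolynomial {i : Fin (n + 2) // i ≠ s} R,
      aeval (fun i : {i : Fin (n + 2) // i ≠ s} => x i / x s) b ≠ 0 ∧
      (aeval (fun i : {i : Fin (n + 2) // i ≠ s} => x i / x s) b)⁻¹ ∈ 𝒪 ∧
      y = aeval (fun i : {i : Fin (n + 2) // i ≠ s} => x i / x s) a /
        aeval (fun i : {i : Fin (n + 2) // i ≠ s} => x i / x s) b)
    (hSM : ∀ Q : Ideal (MvPolynomial {i : Fin (n + 2) // i ≠ s} R), Q.IsPrime → deh s G ∈ Q →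
      (∀ r : R, C r ∈ Q ↔ ¬ IsUnit r) → ∃ j, pderiv j (deh s G) ∉ Q) :
    IsRegularLocalRing 𝒪 := by
  have hts : x s / x s = 1 := div_self hs
  have hEt : aeval (fun i : {i : Fin (n + 2) // i ≠ s} => x i / x s) (deh s G) = 0 := by
    have h0 := aeval_deh s (fun i => x i / x s) hts G
    rw [h0]
    have h1 : (fun i => x i / x s) = fun j => x j * (x s)⁻¹ := by
      funext j
      rw [div_eq_mul_inv]
    rw [h1, aeval_scale x _ d G hGd, hrel, zero_mul]
  refine hyp_core 𝒪 hloc hR (fun i : {i : Fin (n + 2) // i ≠ s} => x i / x s) (fun i => hx i)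
    (deh s G) (deh_ne_zero s G hG0 d hGd) hEt j₀ hind hfrac ?_
  intro Q hQ hEQ hw
  left
  refine hSM Q hQ hEQ fun r => ?_
  rw [hw, aeval_C]
  refine not_congr ⟨hRU r, fun h => ?_⟩
  obtain ⟨v, rfl⟩ := h
  have h1 : algebraMap R F (v : R) * algebraMap R F ((v⁻¹ : Rˣ) : R) = 1 := by
    rw [← map_mul, Units.mul_inv, map_one]
  refine ⟨left_ne_zero_of_mul_eq_one h1, hR _, ?_⟩
  rw [inv_eq_of_mul_eq_one_right h1]
  exact hR _

theorem sub_const_mem {R σ : Type} [CommRing R] (y : MvPolynomial σ R) :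
    y - C (constantCoeff y) ∈ Ideal.span (Set.range (X : σ → MvPolynomial σ R)) := by
  induction y using MvPolynomial.induction_on with
  | C a => simp
  | add p q hp hq =>
    have h : p + q - C (constantCoeff (p + q)) = (p - C (constantCoeff p)) +
        (q - C (constantCoeff q)) := by
      rw [map_add, C_add]
      ring
    rw [h]
    exact Ideal.add_mem _ hp hq
  | mul_X p k hp =>
    rw [map_mul, constantCoeff_X, mul_zero, C_0, sub_zero]
    exact Ideal.mul_mem_left _ _ (Ideal.subset_span ⟨k, rfl⟩)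

theorem const_of_mem {R σ : Type} [CommRing R] (y : MvPolynomial σ R)
    (hy : y ∈ Ideal.span (Set.range (X : σ → MvPolynomial σ R))) : constantCoeff y = 0 := by
  have h : Ideal.span (Set.range (X : σ → MvPolynomial σ R)) ≤
      RingHom.ker (constantCoeff : MvPolynomial σ R →+* R) := by
    rw [Ideal.span_le]
    rintro _ ⟨i, rfl⟩
    exact constantCoeff_X _ i
  exact h hy

section B1

variable {R σ : Type} [CommRing R] [Fintype σ] [DecidableEq σ]

/-- The equation on the last exceptional divisor. -/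
noncomputable def E1 (π u : R) (l : σ → R) (q : σ → σ → R) (m b : ℕ) (w : MvPolynomial σ R) :
    MvPolynomial σ R :=
  C (π ^ b * u) + C (π ^ (m + b + 1)) * ∑ i, C (l i) * X i + ∑ i, ∑ j, C (q i j) * X i * X j +
    C (π ^ m) * w

theorem E1_eq (π u : R) (l : σ → R) (q : σ → σ → R) (m b : ℕ) (g : MvPolynomial σ R)
    (w : MvPolynomial σ R)
    (hE : aeval (fun i => C (π ^ m) * (X i : MvPolynomial σ R)) g =
      algebraMap R (MvPolynomial σ R) (π ^ (2 * m + b) * u) + C (π ^ m) *
        ∑ i, algebraMap R (MvPolynomial σ R) (π ^ (2 * m + b + 1) * l i) * X i +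
        C (π ^ m) ^ 2 * ∑ i, ∑ j, algebraMap R (MvPolynomial σ R) (q i j) * X i * X j +
        C (π ^ m) ^ 3 * w) :
    aeval (fun i => C (π ^ m) * (X i : MvPolynomial σ R)) g =
      C (π ^ (2 * m)) * E1 π u l q m b w := by
  rw [hE]
  unfold E1
  simp only [algebraMap_eq, C_mul, C_pow]
  have h1 : ∑ i, (C π ^ (2 * m + b + 1) * C (l i) * X i : MvPolynomial σ R) =
      C π ^ (2 * m + b + 1) * ∑ i, C (l i) * X i := by
    rw [Finset.mul_sum]
    exact Finset.sum_congr rfl fun i _ => by ring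
  rw [h1]
  ring

theorem pderiv_E1 (π u : R) (l : σ → R) (q : σ → σ → R) (m b : ℕ) (w : MvPolynomial σ R) (j : σ) :
    pderiv j (E1 π u l q m b w) = C (π ^ (m + b + 1)) * C (l j) +
      ∑ i, C (q i j + q j i) * X i + C (π ^ m) * pderiv j w := by
  unfold E1
  have hX : ∀ i, pderiv j (X i : MvPolynomial σ R) = if i = j then 1 else 0 := by
    intro i
    by_cases h : i = j
    · subst h
      simp
    · rw [if_neg h, pderiv_X_of_ne h]
  rw [map_add, map_add, map_add, pderiv_C, pderiv_C_mul, pderiv_C_mul, map_sum, map_sum, zero_add]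
  congr 1
  congr 1
  · congr 1
    simp only [pderiv_C_mul, hX]
    simp
  · simp only [map_sum, Derivation.leibniz, smul_eq_mul, hX, pderiv_C, mul_zero, add_zero]
    simp only [mul_ite, mul_one, mul_zero, Finset.sum_add_distrib, Finset.sum_ite_eq',
      Finset.mem_univ, if_true]
    have h1 : (∑ i : σ, ∑ i_1 : σ, if i = j then (X i_1 : MvPolynomial σ R) * C (q i i_1) else 0) =
        ∑ i, X i * C (q j i) := by
      rw [Finset.sum_eq_single j]
      · simp
      · intro b _ hb
        simp [hb]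
      · intro h
        exact absurd (Finset.mem_univ j) h
    rw [h1, ← Finset.sum_add_distrib]
    refine Finset.sum_congr rfl fun i _ => ?_
    rw [C_add]
    ring

end B1

theorem caseB1 {R F : Type} [CommRing R] [IsDomain R] [IsRegularRing R] [Field F]
    [Algebra R F] (𝒪 : Subring F) (hloc : IsLoc 𝒪)
    (hR : ∀ r : R, algebraMap R F r ∈ 𝒪) (hRU : ∀ r : R, U 𝒪 (algebraMap R F r) → IsUnit r)
    (π : R) (hπ : Prime π) (hπm : ∀ r : R, ¬ IsUnit r ↔ π ∣ r) (hπF : algebraMap R F π ≠ 0)
    {n : ℕ} (G : MvPolynomial (Fin (n + 2)) R) (hG0 : G ≠ 0) (d : ℕ) (hGd : G.IsHomogeneous d)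
    (m b : ℕ) (hb : b ≤ 1) (hmb : 1 ≤ m + b) (u : R) (hu : IsUnit u)
    (l : {i : Fin (n + 2) // i ≠ 0} → R)
    (q : {i : Fin (n + 2) // i ≠ 0} → {i : Fin (n + 2) // i ≠ 0} → R)
    (htay : Tay (deh 0 G) (π ^ (2 * m + b) * u) (fun i => π ^ (2 * m + b + 1) * l i) q)
    (hq : IsUnit (Matrix.det (Matrix.of fun i j => q i j + q j i)))
    (x : Fin (n + 2) → F) (hrel : aeval x G = 0) (hs : x 0 ≠ 0)
    (hx : ∀ i : {i : Fin (n + 2) // i ≠ 0}, x i / (algebraMap R F π ^ m * x 0) ∈ 𝒪)
    (hx0 : m = 0 → ∀ i : {i : Fin (n + 2) // i ≠ 0}, ¬ U 𝒪 (x i / (algebraMap R F π ^ m * x 0)))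
    (j₀ : {i : Fin (n + 2) // i ≠ 0})
    (hind : AlgebraicIndependent R (fun i : {i : {i : Fin (n + 2) // i ≠ 0} // i ≠ j₀} =>
      x i / (algebraMap R F π ^ m * x 0)))
    (hfrac : ∀ y ∈ 𝒪, ∃ a b : MvPolynomial {i : Fin (n + 2) // i ≠ 0} R,
      aeval (fun i : {i : Fin (n + 2) // i ≠ 0} => x i / (algebraMap R F π ^ m * x 0)) b ≠ 0 ∧
      (aeval (fun i : {i : Fin (n + 2) // i ≠ 0} => x i / (algebraMap R F π ^ m * x 0)) b)⁻¹ ∈ 𝒪 ∧
      y = aeval (fun i : {i : Fin (n + 2) // i ≠ 0} => x i / (algebraMap R F π ^ m * x 0)) a /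
        aeval (fun i : {i : Fin (n + 2) // i ≠ 0} => x i / (algebraMap R F π ^ m * x 0)) b) :
    IsRegularLocalRing 𝒪 := by
  set e : {i : Fin (n + 2) // i ≠ 0} → F := fun i => x i / (algebraMap R F π ^ m * x 0) with he
  obtain ⟨w, hw, hE⟩ := htay (MvPolynomial {i : Fin (n + 2) // i ≠ 0} R) (C (π ^ m)) X
  have hE2 := E1_eq π u l q m b (deh 0 G) w hE
  have hπ0 : (C (π ^ (2 * m)) : MvPolynomial {i : Fin (n + 2) // i ≠ 0} R) ≠ 0 := by
    rw [Ne, C_eq_zero]
    exact pow_ne_zero _ hπ.ne_zero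
  have hcomp : ∀ p : MvPolynomial {i : Fin (n + 2) // i ≠ 0} R,
      aeval e (aeval (fun i => C (π ^ m) * (X i : MvPolynomial {i : Fin (n + 2) // i ≠ 0} R)) p) =
        aeval (fun i : {i : Fin (n + 2) // i ≠ 0} => x i / x 0) p := by
    intro p
    rw [← AlgHom.comp_apply]
    congr 1
    apply MvPolynomial.algHom_ext
    intro j
    rw [AlgHom.comp_apply, aeval_X, aeval_X, map_mul, aeval_X, aeval_C, map_pow, he]
    simp only
    have := pow_ne_zero m hπF
    field_simp
  have hg0 : aeval (fun i : {i : Fin (n + 2) // i ≠ 0} => x i / x 0) (deh 0 G) = 0 := by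
    have h0 := aeval_deh 0 (fun i => x i / x 0) (div_self hs) G
    rw [h0]
    have h1 : (fun i => x i / x 0) = fun j => x j * (x 0)⁻¹ := by
      funext j
      rw [div_eq_mul_inv]
    rw [h1, aeval_scale x _ d G hGd, hrel, zero_mul]
  have hE0 : E1 π u l q m b w ≠ 0 := by
    intro h0
    rw [h0, mul_zero] at hE2
    have hgne := deh_ne_zero 0 G hG0 d hGd
    apply hgne
    -- the substitution is injective
    have hinj : ∀ p : MvPolynomial {i : Fin (n + 2) // i ≠ 0} R,
        aeval (fun i => C (π ^ m) * (X i : MvPolynomial {i : Fin (n + 2) // i ≠ 0} R)) p = 0 →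
        p = 0 := by
      intro p hp
      ext s
      have hc : ∀ p : MvPolynomial {i : Fin (n + 2) // i ≠ 0} R,
          coeff s (aeval (fun i => C (π ^ m) *
            (X i : MvPolynomial {i : Fin (n + 2) // i ≠ 0} R)) p) =
            (π ^ m) ^ s.degree * coeff s p := by
        intro p
        induction p using MvPolynomial.induction_on' with
        | monomial t a =>
          rw [aeval_monomial, Finsupp.prod]
          have h3 : ∏ i ∈ t.support, (C (π ^ m) *
              (X i : MvPolynomial {i : Fin (n + 2) // i ≠ 0} R)) ^ t i =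
              C ((π ^ m) ^ t.degree) * monomial t 1 := by
            simp only [mul_pow]
            rw [Finset.prod_mul_distrib, Finset.prod_pow_eq_pow_sum, ← C_pow]
            congr 1
            rw [monomial_eq, C_1, one_mul, Finsupp.prod]
          rw [h3, algebraMap_eq, ← mul_assoc, ← C_mul, coeff_C_mul, coeff_monomial, coeff_monomial]
          split_ifs with h
          · subst h
            ring
          · ring
        | add p q hp hq => rw [map_add, coeff_add, hp, hq, coeff_add]; ring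
      have h4 := hc p
      rw [hp, coeff_zero] at h4
      rw [coeff_zero]
      exact (mul_eq_zero.1 h4.symm).resolve_left (pow_ne_zero _ (pow_ne_zero _ hπ.ne_zero))
    exact hinj _ hE2
  have hEe : aeval e (E1 π u l q m b w) = 0 := by
    have h1 := hcomp (deh 0 G)
    rw [hE2, hg0, map_mul, aeval_C, map_pow] at h1
    exact (mul_eq_zero.1 h1).resolve_left (pow_ne_zero _ hπF)
  refine hyp_core 𝒪 hloc hR e hx (E1 π u l q m b w) hE0 hEe j₀ hind hfrac ?_
  intro Q hQ hEQ hwQ
  have hCQ : ∀ r : R, C r ∈ Q ↔ π ∣ r := by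
    intro r
    rw [hwQ, aeval_C, ← hπm]
    refine not_congr ⟨hRU r, fun h => ?_⟩
    obtain ⟨v, rfl⟩ := h
    have h1 : algebraMap R F (v : R) * algebraMap R F ((v⁻¹ : Rˣ) : R) = 1 := by
      rw [← map_mul, Units.mul_inv, map_one]
    refine ⟨left_ne_zero_of_mul_eq_one h1, hR _, ?_⟩
    rw [inv_eq_of_mul_eq_one_right h1]
    exact hR _
  have hπQ : ∀ N, 1 ≤ N → (C (π ^ N) : MvPolynomial {i : Fin (n + 2) // i ≠ 0} R) ∈ Q := by
    intro N hN
    rw [hCQ]
    exact dvd_pow_self π (by omega)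
  by_cases hall : ∀ i : {i : Fin (n + 2) // i ≠ 0},
      (X i : MvPolynomial {i : Fin (n + 2) // i ≠ 0} R) ∈ Q
  · -- all coordinates are nonunits
    have hspan : Ideal.span (Set.range (X : {i : Fin (n + 2) // i ≠ 0} →
        MvPolynomial {i : Fin (n + 2) // i ≠ 0} R)) ≤ Q := by
      rw [Ideal.span_le]
      rintro _ ⟨i, rfl⟩
      exact hall i
    have hsumq : ∑ i, ∑ j, C (q i j) * X i * (X j : MvPolynomial {i : Fin (n + 2) // i ≠ 0} R) ∈
        Q := Ideal.sum_mem _ fun i _ => Ideal.sum_mem _ fun j _ => Ideal.mul_mem_left _ _ (hall j)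
    have hsuml : ∑ i, C (l i) * (X i : MvPolynomial {i : Fin (n + 2) // i ≠ 0} R) ∈
        Q := Ideal.sum_mem _ fun i _ => Ideal.mul_mem_left _ _ (hall i)
    have hwQ' : w ∈ Q := Ideal.pow_le_self (by norm_num) (Ideal.pow_right_mono hspan 3 hw)
    have hbu : π ∣ π ^ b * u := by
      rw [← hCQ]
      have h1 : (C (π ^ b * u) : MvPolynomial {i : Fin (n + 2) // i ≠ 0} R) =
          E1 π u l q m b w - (C (π ^ (m + b + 1)) * ∑ i, C (l i) * X i +
            ∑ i, ∑ j, C (q i j) * X i * X j + C (π ^ m) * w) := by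
        unfold E1
        ring
      rw [h1]
      exact Ideal.sub_mem _ hEQ (Ideal.add_mem _ (Ideal.add_mem _ (Ideal.mul_mem_left _ _ hsuml)
        hsumq) (Ideal.mul_mem_left _ _ hwQ'))
    have hb1 : b = 1 := by
      by_contra hne
      have hb0 : b = 0 := by omega
      rw [hb0, pow_zero, one_mul] at hbu
      exact ((hπm u).2 hbu) hu
    right
    intro h hh hhE
    -- evaluate at the origin
    have hev : ∀ y ∈ Q, π ∣ constantCoeff y := by
      intro y hy
      rw [← hCQ]
      have h1 : y - C (constantCoeff y) ∈ Ideal.span (Set.range (X : {i : Fin (n + 2) // i ≠ 0} →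
          MvPolynomial {i : Fin (n + 2) // i ≠ 0} R)) := sub_const_mem y
      have h2 : (C (constantCoeff y) : MvPolynomial {i : Fin (n + 2) // i ≠ 0} R) =
          y - (y - C (constantCoeff y)) := by ring
      rw [h2]
      exact Ideal.sub_mem _ hy (hspan h1)
    have hev2 : ∀ y ∈ Q ^ 2, π ^ 2 ∣ constantCoeff y := by
      intro y hy
      rw [pow_two] at hy
      refine Submodule.mul_induction_on hy ?_ ?_
      · intro a ha c hc
        rw [map_mul, pow_two]
        exact mul_dvd_mul (hev a ha) (hev c hc)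
      · intro a c ha hc
        rw [map_add]
        exact dvd_add ha hc
    have h3 := hev2 _ hhE
    have hw0 : constantCoeff w = 0 := const_of_mem w (Ideal.pow_le_self (by norm_num) hw)
    have h5 : constantCoeff (E1 π u l q m b w) = π * u := by
      unfold E1
      simp [hw0, hb1]
    rw [map_mul, h5] at h3
    have h6 : π ∣ constantCoeff h := by
      obtain ⟨v, hv⟩ := h3
      obtain ⟨u', hu'⟩ := hu
      have h7 : constantCoeff h * (u : R) = π * v := by
        apply mul_left_cancel₀ hπ.ne_zero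
        linear_combination hv
      rw [← hu'] at h7
      refine ⟨v * ((u'⁻¹ : Rˣ) : R), ?_⟩
      have h8 : (u' : R) * ((u'⁻¹ : Rˣ) : R) = 1 := by simp
      linear_combination ((u'⁻¹ : Rˣ) : R) * h7 - constantCoeff h * h8
    apply hh
    have h7 : h - C (constantCoeff h) ∈ Ideal.span (Set.range (X : {i : Fin (n + 2) // i ≠ 0} →
        MvPolynomial {i : Fin (n + 2) // i ≠ 0} R)) := sub_const_mem h
    have h8 : h = (h - C (constantCoeff h)) + C (constantCoeff h) := by ring
    rw [h8]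
    exact Ideal.add_mem _ (hspan h7) ((hCQ _).2 h6)
  · -- some coordinate is a unit
    left
    by_contra hcon
    push Not at hcon
    have hm : 1 ≤ m := by
      by_contra hm
      have hm0 : m = 0 := by omega
      apply hall
      intro i
      rw [hwQ, aeval_X]
      exact hx0 hm0 i
    apply hall
    intro i
    refine nondeg (Matrix.of fun i j => q i j + q j i) hq Q X ?_ i
    intro j
    have h1 := hcon j
    rw [pderiv_E1] at h1
    have h2 : ∑ i, algebraMap R (MvPolynomial {i : Fin (n + 2) // i ≠ 0} R)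
        (Matrix.of (fun i j => q i j + q j i) i j) * X i =
        (C (π ^ (m + b + 1)) * C (l j) + ∑ i, C (q i j + q j i) * X i + C (π ^ m) * pderiv j w) -
          C (π ^ (m + b + 1)) * C (l j) - C (π ^ m) * pderiv j w := by
      simp only [Matrix.of_apply, algebraMap_eq]
      ring
    rw [h2]
    exact Ideal.sub_mem _ (Ideal.sub_mem _ h1 (Ideal.mul_mem_right _ _ (hπQ _ (by omega))))
      (Ideal.mul_mem_right _ _ (hπQ _ hm))

end Pool.Agent.Run7.h802.HP
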