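import Pool.Agent.Run7.h802.HP.RegB2

/-! The local rings on the intermediate exceptional divisors. -/

set_option autoImplicit false
set_option linter.unusedSectionVars false
set_option linter.unusedVariables false

namespace Pool.Agent.Run7.h802.HP

open Pool.Agent.H918R2.Quad Pool.Agent.TH214.RM MvPolynomial

theorem scale_ne {R σ : Type} [CommRing R] [IsDomain R] (c : σ → R) (hc : ∀ i, c i ≠ 0)
    (p : MvPolynomial σ R) (hp : p ≠ 0) :
    aeval (fun i => C (c i) * (X i : MvPolynomial σ R)) p ≠ 0 := by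
  classical
  intro h0
  apply hp
  ext s
  have key : ∀ p : MvPolynomial σ R,
      coeff s (aeval (fun i => C (c i) * (X i : MvPolynomial σ R)) p) =
        (s.prod fun i k => c i ^ k) * coeff s p := by
    intro p
    induction p using MvPolynomial.induction_on' with
    | monomial t a =>
      rw [aeval_monomial]
      have h3 : (t.prod fun i k => (C (c i) * (X i : MvPolynomial σ R)) ^ k) =
          C (t.prod fun i k => c i ^ k) * monomial t 1 := by
        simp only [mul_pow, Finsupp.prod]
        rw [Finset.prod_mul_distrib, map_prod]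
        congr 1
        · exact Finset.prod_congr rfl fun i _ => (C_pow _ _).symm
        · rw [monomial_eq, C_1, one_mul, Finsupp.prod]
      rw [h3, algebraMap_eq, ← mul_assoc, ← C_mul, coeff_C_mul, coeff_monomial, coeff_monomial]
      split_ifs with h
      · subst h
        ring
      · ring
    | add p q hp hq => rw [map_add, coeff_add, hp, hq, coeff_add]; ring
  have h4 := key p
  rw [h0, coeff_zero] at h4
  rw [coeff_zero]
  refine (mul_eq_zero.1 h4.symm).resolve_left ?_
  exact Finset.prod_ne_zero_iff.2 fun i _ => pow_ne_zero _ (hc i)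

theorem key_E2 {R σ B : Type} [CommRing R] [Fintype σ] [DecidableEq σ] [CommRing B] (π u : R)
    (l : σ → R) (q : σ → σ → R) (s : σ) (a c b : ℕ) (g : MvPolynomial σ R)
    (ω : MvPolynomial (Option (Option {i : σ // i ≠ s})) R)
    (hE : aeval (fun i => C (π ^ a) * X none * Vc R s i) g =
      algebraMap R (MvPolynomial (Option (Option {i : σ // i ≠ s})) R)
        (π ^ (2 * (a + c + 1) + b) * u) + C (π ^ a) * X none *
        ∑ i, algebraMap R (MvPolynomial (Option (Option {i : σ // i ≠ s})) R)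
          (π ^ (2 * (a + c + 1) + b + 1) * l i) * Vc R s i +
        (C (π ^ a) * X none) ^ 2 * ∑ i, ∑ j,
          algebraMap R (MvPolynomial (Option (Option {i : σ // i ≠ s})) R) (q i j) * Vc R s i *
            Vc R s j + (C (π ^ a) * X none) ^ 3 * ω)
    (f : MvPolynomial (Option (Option {i : σ // i ≠ s})) R →+* B) (hf : f (E0 π s) = 0) :
    f (aeval (fun i => C (π ^ a) * X none * Vc R s i) g) =
      f (C π) ^ (2 * a) * f (X none) ^ 2 * f (E2 π u l q s a c b ω) := by
  have hpi : f (C π) = f (X none) * f (X (some none)) := by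
    have := hf
    rw [E0, map_sub, sub_eq_zero, map_mul] at this
    exact this.symm
  rw [hE]
  unfold E2
  simp only [algebraMap_eq, map_add, map_mul, map_pow, map_sum, C_mul, C_pow]
  have h1 : ∑ i, (f (C π) ^ (2 * (a + c + 1) + b + 1) * f (C (l i)) * f (Vc R s i)) =
      f (C π) ^ (2 * (a + c + 1) + b + 1) * ∑ i, f (C (l i)) * f (Vc R s i) := by
    rw [Finset.mul_sum]
    exact Finset.sum_congr rfl fun i _ => by ring
  rw [h1]
  have h2 : f (C π) ^ (2 * (a + c + 1) + b) =
      f (C π) ^ (2 * a) * (f (X none) * f (X (some none))) ^ (2 * c + 2 + b) := by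
    rw [← hpi, ← pow_add]
    congr 1
    ring
  have h3 : f (C π) ^ a * f (C π) ^ (2 * (a + c + 1) + b + 1) =
      f (C π) ^ (2 * a) * (f (X none) * f (X (some none))) ^ (a + 2 * c + 3 + b) := by
    rw [← hpi, ← pow_add, ← pow_add]
    congr 1
    ring
  rw [h2]
  have h4 : f (C π) ^ a * f (X none) * (f (C π) ^ (2 * (a + c + 1) + b + 1) *
      ∑ i, f (C (l i)) * f (Vc R s i)) =
      (f (C π) ^ a * f (C π) ^ (2 * (a + c + 1) + b + 1)) * (f (X none) *
        ∑ i, f (C (l i)) * f (Vc R s i)) := by ring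
  rw [h4, h3]
  ring

/-- The values of the coordinates. -/
noncomputable def eB {R F : Type} [CommRing R] [Field F] [Algebra R F] {n : ℕ} (π : R)
    (x : Fin (n + 2) → F) (a : ℕ) (s : {i : Fin (n + 2) // i ≠ 0}) :
    Option (Option {i : {i : Fin (n + 2) // i ≠ 0} // i ≠ s}) → F
  | none => x s / (algebraMap R F π ^ a * x 0)
  | some none => algebraMap R F π ^ (a + 1) * x 0 / x s
  | some (some i) => x i / x s

theorem caseB2 {R F : Type} [CommRing R] [IsDomain R] [IsDiscreteValuationRing R] [Field F]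
    [Algebra R F] (𝒪 : Subring F) (hloc : IsLoc 𝒪)
    (hR : ∀ r : R, algebraMap R F r ∈ 𝒪)
    (π : R) (hπ : Irreducible π) (hπF : algebraMap R F π ≠ 0)
    {n : ℕ} (G : MvPolynomial (Fin (n + 2)) R) (hG0 : G ≠ 0) (d : ℕ) (hGd : G.IsHomogeneous d)
    (a c b : ℕ) (u : R)
    (l : {i : Fin (n + 2) // i ≠ 0} → R)
    (q : {i : Fin (n + 2) // i ≠ 0} → {i : Fin (n + 2) // i ≠ 0} → R)
    (htay : Tay (deh 0 G) (π ^ (2 * (a + c + 1) + b) * u)
      (fun i => π ^ (2 * (a + c + 1) + b + 1) * l i) q)
    (hq : IsUnit (Matrix.det (Matrix.of fun i j => q i j + q j i)))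
    (x : Fin (n + 2) → F) (hrel : aeval x G = 0) (hx0 : x 0 ≠ 0)
    (s : {i : Fin (n + 2) // i ≠ 0}) (hs : x s ≠ 0)
    (hzO : x s / (algebraMap R F π ^ a * x 0) ∈ 𝒪)
    (hz0 : a = 0 → ¬ U 𝒪 (x s / (algebraMap R F π ^ a * x 0)))
    (hwO : algebraMap R F π ^ (a + 1) * x 0 / x s ∈ 𝒪)
    (hw0 : ¬ U 𝒪 (algebraMap R F π ^ (a + 1) * x 0 / x s))
    (hv : ∀ i : {i : Fin (n + 2) // i ≠ 0}, x i / x s ∈ 𝒪)
    (j₀ : {i : Fin (n + 2) // i ≠ (s : Fin (n + 2))})
    (hind : AlgebraicIndependent R
      (fun i : {i : {i : Fin (n + 2) // i ≠ (s : Fin (n + 2))} // i ≠ j₀} =>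
        zN π x (a + 1) i / zN π x (a + 1) s))
    (hfrac : ∀ y ∈ 𝒪, ∃ f₁ f₂ : MvPolynomial
      (Option (Option {i : {i : Fin (n + 2) // i ≠ 0} // i ≠ s})) R,
      aeval (eB π x a s) f₂ ≠ 0 ∧ (aeval (eB π x a s) f₂)⁻¹ ∈ 𝒪 ∧
      y = aeval (eB π x a s) f₁ / aeval (eB π x a s) f₂) :
    IsRegularLocalRing 𝒪 := by
  classical
  let τ := Option (Option {i : {i : Fin (n + 2) // i ≠ 0} // i ≠ s})
  let eW : MvPolynomial τ R →ₐ[R] F := aeval (eB π x a s)
  have heC : ∀ r, eW (C r) = algebraMap R F r := fun r => aeval_C _ r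
  have hez : eW (X none) = x s / (algebraMap R F π ^ a * x 0) := aeval_X _ _
  have hew : eW (X (some none)) = algebraMap R F π ^ (a + 1) * x 0 / x s := aeval_X _ _
  have hev : ∀ i, eW (X (some (some i))) = x i / x s := fun i => aeval_X _ _
  have heV : ∀ i, eW (Vc R s i) = x i / x s := by
    intro i
    unfold Vc
    split_ifs with h
    · rw [map_one, h, div_self hs]
    · exact hev _
  have heW : ∀ w, eW w ∈ 𝒪 := by
    intro w
    induction w using MvPolynomial.induction_on with
    | C r => rw [heC]; exact hR r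
    | add p q hp hq => rw [map_add]; exact 𝒪.add_mem hp hq
    | mul_X p j hp =>
      rw [map_mul]
      refine 𝒪.mul_mem hp ?_
      rcases j with _ | _ | j
      · rw [hez]; exact hzO
      · rw [hew]; exact hwO
      · rw [hev]; exact hv _
  have hπa : ∀ N, algebraMap R F π ^ N ≠ 0 := fun N => pow_ne_zero N hπF
  have he0 : eW (E0 π s) = 0 := by
    unfold E0
    rw [map_sub, map_mul, hez, hew, heC]
    have := hπa a
    field_simp
    ring
  obtain ⟨ω, hω, hE⟩ := htay (MvPolynomial τ R) (C (π ^ a) * X none) (Vc R s)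
  have hkey := fun (B : Type) (iB : CommRing B) (f : MvPolynomial τ R →+* B)
    (hf : f (E0 π s) = 0) => key_E2 π u l q s a c b (deh 0 G) ω hE f hf
  have hg0 : aeval (fun i : {i : Fin (n + 2) // i ≠ 0} => x i / x 0) (deh 0 G) = 0 := by
    have h0 := aeval_deh 0 (fun i => x i / x 0) (div_self hx0) G
    rw [h0]
    have h1 : (fun i => x i / x 0) = fun j => x j * (x 0)⁻¹ := by
      funext j
      rw [div_eq_mul_inv]
    rw [h1, aeval_scale x _ d G hGd, hrel, zero_mul]
  have he2 : eW (E2 π u l q s a c b ω) = 0 := by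
    have h1 := hkey F inferInstance (eW : MvPolynomial τ R →+* F) he0
    have h2 : (eW : MvPolynomial τ R →+* F) (aeval (fun i => C (π ^ a) * X none * Vc R s i)
        (deh 0 G)) = 0 := by
      rw [← hg0]
      change eW (aeval (fun i => C (π ^ a) * X none * Vc R s i) (deh 0 G)) = _
      rw [← AlgHom.comp_apply]
      congr 1
      apply MvPolynomial.algHom_ext
      intro j
      rw [AlgHom.comp_apply, aeval_X, aeval_X, map_mul, map_mul, heV, hez, heC, map_pow]
      have := hπa a
      field_simp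
    rw [h2] at h1
    have h3 : (eW : MvPolynomial τ R →+* F) (C π) ^ (2 * a) ≠ 0 := by
      change eW (C π) ^ (2 * a) ≠ 0
      rw [heC]
      exact hπa _
    have h4 : (eW : MvPolynomial τ R →+* F) (X none) ^ 2 ≠ 0 := by
      change eW (X none) ^ 2 ≠ 0
      rw [hez]
      exact pow_ne_zero 2 (div_ne_zero hs (mul_ne_zero (hπa a) hx0))
    exact (mul_eq_zero.1 h1.symm).resolve_left (mul_ne_zero h3 h4)
  let I : Ideal (MvPolynomial τ R) := Ideal.span {E0 π s, E2 π u l q s a c b ω}
  have hI : ∀ w ∈ I, eW w = 0 := by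
    have h1 : I ≤ RingHom.ker (eW : _ →+* F) := by
      rw [Ideal.span_le]
      intro y hy
      simp only [Set.mem_insert_iff, Set.mem_singleton_iff] at hy
      rcases hy with rfl | rfl
      · exact he0
      · exact he2
    intro w hw
    exact h1 hw
  obtain ⟨A, _, _, pr, hpr, hprk, hpr0⟩ := exists_quot (R := R) I
  have hprE0 : pr (E0 π s) = 0 := (hpr0 _).2 (Ideal.subset_span (by simp))
  have hprE2 : pr (E2 π u l q s a c b ω) = 0 := (hpr0 _).2 (Ideal.subset_span (by simp))
  have hprpi : pr (C π) = pr (X none) * pr (X (some none)) := by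
    have := hprE0
    rw [E0, map_sub, sub_eq_zero, map_mul] at this
    exact this.symm
  -- the coordinates of the chart of the scaled hypersurface
  let Y : Fin (n + 2) → MvPolynomial τ R := fun j =>
    if h : j = 0 then X (some none) else Vc R s ⟨j, h⟩
  have hY0 : Y 0 = X (some none) := dif_pos rfl
  have hYi : ∀ i : {i : Fin (n + 2) // i ≠ 0}, Y i = Vc R s i := fun i => dif_neg i.2
  have hYs : Y s = 1 := by
    rw [hYi]
    unfold Vc
    rw [dif_pos rfl]
  have heY : ∀ j, eW (Y j) = zN π x (a + 1) j / zN π x (a + 1) s := by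
    intro j
    have h1 : zN π x (a + 1) s = x s := if_neg s.2
    rw [h1]
    by_cases h : j = 0
    · subst h
      rw [hY0, hew]
      unfold zN
      rw [if_pos rfl]
    · have h2 := hYi ⟨j, h⟩
      simp only at h2
      rw [h2, heV]
      unfold zN
      rw [if_neg h]
  let cc : Fin (n + 2) → R := fun i => if i = 0 then 1 else π ^ (a + 1)
  have hcc : ∀ i, cc i ≠ 0 := by
    intro i
    simp only [cc]
    split_ifs
    · exact one_ne_zero
    · exact pow_ne_zero _ hπ.ne_zero
  set G2 : MvPolynomial (Fin (n + 2)) R := aeval (fun i => C (cc i) * X i) G with hG2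
  have hG20 : G2 ≠ 0 := scale_ne cc hcc G hG0
  have hG2d : G2.IsHomogeneous d := by
    have h1 : G2.IsHomogeneous (1 * d) := by
      refine hGd.aeval _ fun i => ?_
      have h2 := (isHomogeneous_C (Fin (n + 2)) (cc i)).mul (isHomogeneous_X R i)
      rwa [zero_add] at h2
    rwa [one_mul] at h1
  have hP0 : deh (s : Fin (n + 2)) G2 ≠ 0 := deh_ne_zero _ G2 hG20 d hG2d
  have hPy : pr (aeval (fun j : {j : Fin (n + 2) // j ≠ (s : Fin (n + 2))} => Y j)
      (deh (s : Fin (n + 2)) G2)) = 0 := by
    rw [aeval_deh (s : Fin (n + 2)) Y hYs G2, hG2]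
    have h1 : pr (aeval Y (aeval (fun i => C (cc i) * (X i : MvPolynomial (Fin (n + 2)) R)) G)) =
        aeval (fun i => (if h : i = 0 then 1 else
          pr (C (π ^ a) * X none * Vc R s ⟨i, h⟩)) * pr (X (some none))) G := by
      rw [← AlgHom.comp_apply, ← AlgHom.comp_apply]
      congr 1
      apply MvPolynomial.algHom_ext
      intro j
      rw [AlgHom.comp_apply, AlgHom.comp_apply, aeval_X, aeval_X, map_mul, map_mul, aeval_X,
        aeval_C]
      by_cases h : j = 0
      · subst h
        rw [hY0, dif_pos rfl]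
        simp [cc]
      · rw [dif_neg h]
        have h2 := hYi ⟨j, h⟩
        simp only at h2
        rw [h2]
        have h3 : cc j = π ^ (a + 1) := if_neg h
        rw [h3]
        have h4 : pr (algebraMap R (MvPolynomial τ R) (π ^ (a + 1))) =
            pr (C (π ^ a)) * (pr (X none) * pr (X (some none))) := by
          rw [← hprpi, ← map_mul, ← C_mul, algebraMap_eq, pow_succ]
        rw [h4, map_mul, map_mul]
        ring
    rw [h1, aeval_scale _ _ d G hGd]
    have h2 : aeval (fun i : Fin (n + 2) => (if h : i = 0 then (1 : A) else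
          pr (C (π ^ a) * X none * Vc R s ⟨i, h⟩))) G =
        pr (aeval (fun i => C (π ^ a) * X none * Vc R s i) (deh 0 G)) := by
      rw [← aeval_deh 0 (fun i : Fin (n + 2) => (if h : i = 0 then (1 : A) else
          pr (C (π ^ a) * X none * Vc R s ⟨i, h⟩))) (dif_pos rfl) G, ← AlgHom.comp_apply]
      congr 1
      apply MvPolynomial.algHom_ext
      intro j
      rw [AlgHom.comp_apply, aeval_X, aeval_X]
      exact dif_neg j.2
    have h3 := hkey A inferInstance (pr : MvPolynomial τ R →+* A) hprE0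
    have h4 : (pr : MvPolynomial τ R →+* A) (E2 π u l q s a c b ω) = 0 := hprE2
    rw [h4, mul_zero] at h3
    rw [h2]
    change (pr : MvPolynomial τ R →+* A) _ * _ = 0
    rw [h3, zero_mul]
  refine regular_of_pres 𝒪 hloc pr hpr eW ?_ heW hfrac ?_
    (fun j : {j : Fin (n + 2) // j ≠ (s : Fin (n + 2))} => Y j)
    (deh (s : Fin (n + 2)) G2) hP0 hPy j₀ ?_ ?_
  · intro w hw
    exact hI w ((hpr0 w).1 hw)
  · intro q' hq' hqm
    refine regB2 π u hπ l q hq s a c b ω (pr : _ →+* A) hpr hprk q' ?_ ?_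
    · change pr (X (some none)) ∈ q'
      rw [hqm, hew]
      exact hw0
    · intro ha
      change pr (X none) ∈ q'
      rw [hqm, hez]
      exact hz0 ha
  · convert hind using 2 with j
    exact heY _
  · intro w
    induction w using MvPolynomial.induction_on with
    | C r => exact ⟨C r, 1, by simp, by rw [map_one, one_mul, aeval_C]; rfl⟩
    | add f₁ f₂ ha hb =>
      obtain ⟨p, p', h1, h2⟩ := ha
      obtain ⟨r, r', h3, h4⟩ := hb
      refine ⟨p * r' + p' * r, p' * r', ?_, ?_⟩
      · rw [map_mul, map_mul]; exact mul_ne_zero h1 h3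
      · simp only [map_add, map_mul] at h2 h4 ⊢
        linear_combination pr (aeval (fun j : {j : Fin (n + 2) // j ≠ (s : Fin (n + 2))} => Y j) r')
          * h2 + pr (aeval (fun j : {j : Fin (n + 2) // j ≠ (s : Fin (n + 2))} => Y j) p') * h4
    | mul_X f₁ o ha =>
      obtain ⟨p, p', h1, h2⟩ := ha
      have h0s : (0 : Fin (n + 2)) ≠ (s : Fin (n + 2)) := fun h => s.2 h.symm
      have hX : ∃ r r' : MvPolynomial {j : Fin (n + 2) // j ≠ (s : Fin (n + 2))} R,
          eW (aeval (fun j : {j : Fin (n + 2) // j ≠ (s : Fin (n + 2))} => Y j) r') ≠ 0 ∧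
          pr (aeval (fun j : {j : Fin (n + 2) // j ≠ (s : Fin (n + 2))} => Y j) r' * X o) =
            pr (aeval (fun j : {j : Fin (n + 2) // j ≠ (s : Fin (n + 2))} => Y j) r) := by
        rcases o with _ | _ | i
        · refine ⟨C π, X ⟨0, h0s⟩, ?_, ?_⟩
          · rw [aeval_X, hY0, hew]
            exact div_ne_zero (mul_ne_zero (hπa _) hx0) hs
          · rw [aeval_X, hY0, aeval_C, map_mul, mul_comm, ← hprpi]
            rfl
        · exact ⟨X ⟨0, h0s⟩, 1, by simp, by rw [map_one, one_mul, aeval_X, hY0]⟩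
        · have his : ((i : {i : Fin (n + 2) // i ≠ 0}) : Fin (n + 2)) ≠ (s : Fin (n + 2)) :=
            fun h => i.2 (Subtype.ext h)
          refine ⟨X ⟨((i : {i : Fin (n + 2) // i ≠ 0}) : Fin (n + 2)), his⟩, 1, by simp, ?_⟩
          rw [map_one, one_mul, aeval_X, hYi]
          unfold Vc
          rw [dif_neg i.2]
      obtain ⟨r, r', h3, h4⟩ := hX
      refine ⟨p * r, p' * r', ?_, ?_⟩
      · rw [map_mul, map_mul]; exact mul_ne_zero h1 h3
      · simp only [map_mul] at h2 h4 ⊢
        linear_combination pr (aeval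
          (fun j : {j : Fin (n + 2) // j ≠ (s : Fin (n + 2))} => Y j) r') * pr (X o) * h2 +
          pr (aeval (fun j : {j : Fin (n + 2) // j ≠ (s : Fin (n + 2))} => Y j) p) * h4

end Pool.Agent.Run7.h802.HP
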