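import Pool.Agent.TH214.RM.Good
import Pool.Agent.H918R2.Quad.Pres

/-! Local rings of the blow-up of a weighted chain: the presentation. -/

set_option autoImplicit false
set_option linter.unusedSectionVars false
set_option linter.unusedVariables false

namespace Pool.Agent.Run7.h802.HP

open Pool.Agent.H918R2.Quad Pool.Agent.TH214.RM MvPolynomial

/-- Regularity of a local ring which is a localization of a hypersurface. -/
theorem hyp_core {R F σ : Type} [CommRing R] [IsDomain R] [IsRegularRing R] [Field F]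
    [Algebra R F] [Fintype σ] [DecidableEq σ] (𝒪 : Subring F) (hloc : IsLoc 𝒪)
    (hR : ∀ r : R, algebraMap R F r ∈ 𝒪)
    (e : σ → F) (he : ∀ j, e j ∈ 𝒪) (E : MvPolynomial σ R) (hE0 : E ≠ 0) (hEe : aeval e E = 0)
    (j₀ : σ) (hind : AlgebraicIndependent R (fun j : {j : σ // j ≠ j₀} => e j))
    (hfrac : ∀ x ∈ 𝒪, ∃ a b : MvPolynomial σ R, aeval e b ≠ 0 ∧ (aeval e b)⁻¹ ∈ 𝒪 ∧
      x = aeval e a / aeval e b)
    (hreg : ∀ Q : Ideal (MvPolynomial σ R), Q.IsPrime → E ∈ Q →
      (∀ w, w ∈ Q ↔ ¬ U 𝒪 (aeval e w)) →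
      (∃ j, pderiv j E ∉ Q) ∨ ∀ h, h ∉ Q → h * E ∉ Q ^ 2) : IsRegularLocalRing 𝒪 := by
  let I : Ideal (MvPolynomial σ R) := Ideal.span {E}
  let eW : MvPolynomial σ R →ₐ[R] F := aeval e
  have heC : ∀ r, eW (C r) = algebraMap R F r := fun r => aeval_C _ r
  have heX : ∀ j, eW (X j) = e j := fun j => aeval_X _ j
  have heW : ∀ w, eW w ∈ 𝒪 := by
    intro w
    induction w using MvPolynomial.induction_on with
    | C r => rw [heC]; exact hR r
    | add p q hp hq => rw [map_add]; exact 𝒪.add_mem hp hq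
    | mul_X p j hp => rw [map_mul, heX]; exact 𝒪.mul_mem hp (he _)
  have hI : ∀ w ∈ I, eW w = 0 := by
    intro w hw
    obtain ⟨c, rfl⟩ := Ideal.mem_span_singleton.1 hw
    rw [map_mul, show eW E = 0 from hEe, zero_mul]
  obtain ⟨A, _, _, pr, hpr, hprk, hpr0⟩ := exists_quot (R := R) I
  have haev : ∀ p : MvPolynomial σ R,
      aeval (fun j : σ => (X j : MvPolynomial σ R)) p = p := by
    intro p
    exact aeval_X_left_apply p
  refine regular_of_pres 𝒪 hloc pr hpr eW ?_ heW hfrac ?_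
    (fun j : σ => X j) E hE0 ?_ j₀ ?_ ?_
  · intro w hw
    exact hI w ((hpr0 w).1 hw)
  · intro q hq hqm
    have hEq : pr E = 0 := (hpr0 E).2 (Ideal.mem_span_singleton_self _)
    let Q : Ideal (MvPolynomial σ R) := q.comap (pr : _ →+* A)
    have hQ : Q.IsPrime := Ideal.comap_isPrime _ _
    have hEQ : E ∈ Q := by
      change pr E ∈ q
      rw [hEq]
      exact q.zero_mem
    rcases hreg Q hQ hEQ (fun w => hqm w) with ⟨j, hj⟩ | h
    · exact regular_of_pderiv E (pr : _ →+* A) hpr hprk q j hj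
    · have hid : (q.comap (pr : _ →+* A)).map (RingHom.id _) = Q := Ideal.map_id _
      refine reg_crit_one (W := MvPolynomial σ R) (pr : _ →+* A) hpr {E}
        (by rw [Finset.coe_singleton]; exact hprk) q (RingHom.id _)
        (fun z => ⟨z, rfl⟩) ?_ ∅ (by simp) ?_ E hEq ?_ ?_
      · intro z hz
        have h0 : z = 0 := by simpa using hz
        rw [h0]
        exact Ideal.zero_mem _
      · intro z hz
        have h0 : z = 0 := by simpa using hz
        refine ⟨1, ?_, ?_⟩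
        · rw [map_one]
          exact (Ideal.ne_top_iff_one q).1 hq.ne_top
        · rw [h0, mul_zero, map_zero]
          exact Submodule.zero_mem _
      · intro c hc
        rw [hid] at hc ⊢
        exact h c hc
      · simp
  · rw [haev]
    exact (hpr0 E).2 (Ideal.mem_span_singleton_self _)
  · convert hind using 2 with j
    exact heX _
  · intro w
    refine ⟨w, 1, by rw [map_one, map_one]; exact one_ne_zero, ?_⟩
    rw [haev, haev, one_mul]

/-- Weighted coordinates. -/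
def zN {R F : Type} [CommRing R] [Field F] [Algebra R F] {n : ℕ} (π : R) (x : Fin (n + 2) → F)
    (N : ℕ) (i : Fin (n + 2)) : F :=
  if i = 0 then algebraMap R F π ^ N * x 0 else x i

/-- The generators of the local module. -/
def Gs {R F : Type} [CommRing R] [Field F] [Algebra R F] {n D : ℕ} (π : R) (x : Fin (n + 2) → F)
    (lam : Fin D → ℕ) : Set F :=
  Set.range fun φ : Fin D → Fin (n + 2) => ∏ t, zN π x (lam t) (φ t)

section

variable {R F : Type} [CommRing R] [Field F] [Algebra R F] {n D : ℕ} {π : R}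
  {x : Fin (n + 2) → F} {lam : Fin D → ℕ} {𝒪 : Subring F}

theorem exists_phi (hloc : IsLoc 𝒪) (hR : ∀ r : R, algebraMap R F r ∈ 𝒪) (f : F) (hf : f ≠ 0)
    (hfG : f ∈ Submodule.span R (Gs π x lam)) (hG : ∀ g ∈ Gs π x lam, g / f ∈ 𝒪) :
    ∃ φ : Fin D → Fin (n + 2), (∀ t, zN π x (lam t) (φ t) ≠ 0) ∧
      U 𝒪 ((∏ t, zN π x (lam t) (φ t)) / f) ∧
      ∀ t i, zN π x (lam t) i / zN π x (lam t) (φ t) ∈ 𝒪 := by
  classical
  obtain ⟨g, ⟨φ, rfl⟩, hU⟩ := exists_U_gen hloc hR _ f hf hG hfG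
  have hne : ∏ t, zN π x (lam t) (φ t) ≠ 0 := by
    intro h
    simp only at hU
    rw [h, zero_div] at hU
    exact not_U_zero hU
  have hne' : ∀ t, zN π x (lam t) (φ t) ≠ 0 := fun t =>
    (Finset.prod_ne_zero_iff.1 hne) t (Finset.mem_univ t)
  refine ⟨φ, hne', hU, ?_⟩
  intro t i
  have h1 : (∏ t', zN π x (lam t') (Function.update φ t i t')) / f ∈ 𝒪 := hG _ ⟨_, rfl⟩
  have h2 : ∏ t', zN π x (lam t') (Function.update φ t i t') =
      zN π x (lam t) i * ∏ t' ∈ Finset.univ.erase t, zN π x (lam t') (φ t') := by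
    rw [← Finset.mul_prod_erase _ _ (Finset.mem_univ t), Function.update_self]
    congr 1
    refine Finset.prod_congr rfl fun t' ht' => ?_
    rw [Function.update_of_ne (Finset.ne_of_mem_erase ht')]
  have h3 : ∏ t', zN π x (lam t') (φ t') =
      zN π x (lam t) (φ t) * ∏ t' ∈ Finset.univ.erase t, zN π x (lam t') (φ t') :=
    (Finset.mul_prod_erase _ _ (Finset.mem_univ t)).symm
  have h4 : ∏ t' ∈ Finset.univ.erase t, zN π x (lam t') (φ t') ≠ 0 := by
    rw [h3] at hne
    exact right_ne_zero_of_mul hne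
  have h5 : zN π x (lam t) i / zN π x (lam t) (φ t) =
      ((∏ t', zN π x (lam t') (Function.update φ t i t')) / f) *
        ((∏ t', zN π x (lam t') (φ t')) / f)⁻¹ := by
    rw [h2, h3]
    have := hne' t
    field_simp
  rw [h5]
  exact 𝒪.mul_mem h1 hU.2.2

theorem frac_phi {τ : Type} (f : F) (hf : f ≠ 0) (hfG : f ∈ Submodule.span R (Gs π x lam))
    (hloc2 : IsLocOf 𝒪 (chart R (Submodule.span R (Gs π x lam)) f))
    (φ : Fin D → Fin (n + 2)) (hφ : U 𝒪 ((∏ t, zN π x (lam t) (φ t)) / f))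
    (h : Fin D → F) (hh : ∀ t, h t ≠ 0) (hU : ∀ t, U 𝒪 (zN π x (lam t) (φ t) / h t))
    (eW : MvPolynomial τ R →ₐ[R] F) (heW : ∀ w, eW w ∈ 𝒪)
    (hz : ∀ t i, ∃ w, zN π x (lam t) i = h t * eW w) :
    ∀ x ∈ 𝒪, ∃ a b : MvPolynomial τ R, eW b ≠ 0 ∧ (eW b)⁻¹ ∈ 𝒪 ∧ x = eW a / eW b := by
  classical
  have hne : ∏ t, h t ≠ 0 := Finset.prod_ne_zero_iff.2 fun t _ => hh t
  refine frac_of_chart eW heW (Gs π x lam) f (∏ t, h t) hne ?_ hfG ?_ hloc2
  · rintro g ⟨ψ, rfl⟩
    choose w hw using hz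
    refine ⟨∏ t, w t (ψ t), ?_⟩
    rw [map_prod, ← Finset.prod_mul_distrib]
    exact Finset.prod_congr rfl fun t _ => hw t (ψ t)
  · have h1 : U 𝒪 (∏ t, zN π x (lam t) (φ t) / h t) := by
      refine Finset.prod_induction _ (U 𝒪) (fun a b ha hb => ha.mul hb) U_one fun t _ => hU t
    have h2 : f / ∏ t, h t = ((∏ t, zN π x (lam t) (φ t)) / f)⁻¹ *
        ∏ t, zN π x (lam t) (φ t) / h t := by
      rw [Finset.prod_div_distrib]
      have h3 : ∏ t, zN π x (lam t) (φ t) ≠ 0 := by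
        intro h0
        rw [h0, zero_div] at hφ
        exact not_U_zero hφ
      field_simp
    rw [h2]
    exact hφ.inv.mul h1

end

end Pool.Agent.Run7.h802.HP
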