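import Pool.Agent.Run7.h802.HP.All
import Pool.Agent.H918R2.Quad.Final

/-! Function fields of hypersurfaces: regular proper models over the integers. -/

set_option autoImplicit false
set_option linter.unusedSectionVars false
set_option linter.unusedVariables false

open AlgebraicGeometry CategoryTheory NumberField
open scoped Pointwise

namespace Pool.Agent.Run7.h802.HP

open Pool.Agent.H918R2.Quad Pool.Agent.W418 Pool.Agent.TH214.RM MvPolynomial

section

variable {O K F : Type} [CommRing O] [IsDedekindDomain O] [Field K] [Algebra O K]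
  [IsFractionRing O K] [Field F] [Algebra K F] [Algebra O F] [IsScalarTower O K F]

/-- The fractions of elements of a subalgebra. -/
theorem frac_field (S : Subalgebra O F) (T : Set F)
    (hT : ∀ t ∈ T, ∃ b ∈ S, ∃ c ∈ S, c ≠ 0 ∧ t = b / c)
    (htop : IntermediateField.adjoin K T = ⊤) (y : F) : ∃ b ∈ S, ∃ c ∈ S, c ≠ 0 ∧ y = b / c := by
  have hOK : Function.Injective (algebraMap O K) := IsFractionRing.injective O K
  let L : IntermediateField K F :=
    { carrier := {y | ∃ b ∈ S, ∃ c ∈ S, c ≠ 0 ∧ y = b / c}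
      mul_mem' := by
        rintro _ _ ⟨b, hb, c, hc, hc0, rfl⟩ ⟨b', hb', c', hc', hc0', rfl⟩
        refine ⟨b * b', S.mul_mem hb hb', c * c', S.mul_mem hc hc', mul_ne_zero hc0 hc0', ?_⟩
        field_simp
      add_mem' := by
        rintro _ _ ⟨b, hb, c, hc, hc0, rfl⟩ ⟨b', hb', c', hc', hc0', rfl⟩
        refine ⟨b * c' + b' * c, S.add_mem (S.mul_mem hb hc') (S.mul_mem hb' hc), c * c',
          S.mul_mem hc hc', mul_ne_zero hc0 hc0', ?_⟩
        field_simp
      algebraMap_mem' := by
        intro r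
        obtain ⟨a, s, hs, rfl⟩ := IsFractionRing.div_surjective (A := O) r
        have hs0 : s ≠ 0 := nonZeroDivisors.ne_zero hs
        refine ⟨algebraMap O F a, S.algebraMap_mem a, algebraMap O F s, S.algebraMap_mem s, ?_, ?_⟩
        · rw [IsScalarTower.algebraMap_apply O K F]
          intro h
          rw [map_eq_zero] at h
          exact hs0 (hOK (by rw [h, map_zero]))
        · rw [map_div₀, ← IsScalarTower.algebraMap_apply, ← IsScalarTower.algebraMap_apply]
      inv_mem' := by
        rintro _ ⟨b, hb, c, hc, hc0, rfl⟩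
        by_cases hb0 : b = 0
        · exact ⟨0, S.zero_mem, 1, S.one_mem, one_ne_zero, by rw [hb0]; simp⟩
        · exact ⟨c, hc, b, hb, hb0, by rw [inv_div]⟩ }
  have h1 : IntermediateField.adjoin K T ≤ L := IntermediateField.adjoin_le_iff.2 hT
  rw [htop] at h1
  exact h1 IntermediateField.mem_top

include K in
theorem hasModule_of_good {n : ℕ} (x : Fin (n + 2) → F) (hx0 : x 0 = 1)
    (hgen : IntermediateField.adjoin K (Set.range x) = ⊤) (h : GoodModule O x) :
    HasModule O F := by
  obtain ⟨D, M, hD, hfg, h0, hM, hM2, hreg⟩ := h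
  refine ⟨M, hfg, h0, ?_, hreg⟩
  intro f hf hf0 y
  refine frac_field (K := K) (chart O M f) (Set.range x) ?_ hgen y
  rintro _ ⟨i, rfl⟩
  have h1 : (1 : F) ∈ Submodule.span O (Set.range x ^ D) := by
    apply Submodule.subset_span
    have h2 : (1 : F) ^ D ∈ Set.range x ^ D := Set.pow_mem_pow ⟨0, hx0⟩
    rwa [one_pow] at h2
  have h2 : x i ∈ Submodule.span O (Set.range x ^ D) := by
    apply Submodule.subset_span
    obtain ⟨D', rfl⟩ : ∃ D', D = D' + 1 := ⟨D - 1, by omega⟩
    rw [pow_succ]
    have h3 : (1 : F) ^ D' ∈ Set.range x ^ D' := Set.pow_mem_pow ⟨0, hx0⟩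
    rw [one_pow] at h3
    have h4 := Set.mul_mem_mul h3 (Set.mem_range_self (f := x) i)
    rwa [one_mul] at h4
  obtain ⟨s, hs, hs1⟩ := hM2 _ h1
  obtain ⟨t, ht, htx⟩ := hM2 _ h2
  have hOK : Function.Injective (algebraMap O K) := IsFractionRing.injective O K
  have hOF : ∀ r : O, r ≠ 0 → algebraMap O F r ≠ 0 := by
    intro r hr h
    rw [IsScalarTower.algebraMap_apply O K F, map_eq_zero] at h
    exact hr (hOK (by rw [h, map_zero]))
  refine ⟨algebraMap O F s * ((t • x i) / f), ?_, algebraMap O F t * ((s • (1 : F)) / f), ?_, ?_, ?_⟩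
  · exact Subalgebra.mul_mem _ (Subalgebra.algebraMap_mem _ _)
      (Algebra.subset_adjoin ⟨_, htx, rfl⟩)
  · exact Subalgebra.mul_mem _ (Subalgebra.algebraMap_mem _ _)
      (Algebra.subset_adjoin ⟨_, hs1, rfl⟩)
  · rw [Algebra.smul_def, mul_one]
    exact mul_ne_zero (hOF t ht) (div_ne_zero (hOF s hs) hf0)
  · rw [Algebra.smul_def, Algebra.smul_def, mul_one]
    have := hOF s hs
    have := hOF t ht
    field_simp

end

/-- Regular proper models over `ℤ` of the function fields. -/
theorem model_ff {K : Type} [Field K] [NumberField K] {n : ℕ} (hn : 1 ≤ n)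
    (G : MvPolynomial (Fin (n + 2)) K) (d : ℕ) (hd : 2 ≤ d) (hGd : G.IsHomogeneous d)
    (hsm : Smooth G) (hloc : LocReg2 (𝓞 K) G) {F : Type} [Field F] [Algebra K F]
    (x : Fin (n + 2) → F) (hx0 : x 0 = 1) (hrel : aeval x G = 0)
    (hgen : IntermediateField.adjoin K (Set.range x) = ⊤)
    (b : Fin n → F) (htb : IsTranscendenceBasis K b) :
    ∃ (X' : Scheme.{0}) (_ : IsIntegral X') (g : X' ⟶ Spec (CommRingCat.of ℤ)),
      IsProper g ∧
      (∀ x : X',
        (((Module.finrank (IsLocalRing.ResidueField (X'.presheaf.stalk x))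
            (IsLocalRing.CotangentSpace (X'.presheaf.stalk x)) : ℕ∞)) : WithBot ℕ∞)
          = ringKrullDim (X'.presheaf.stalk x)) ∧
      Nonempty (X'.functionField ≃+* F) := by
  have hirr := irreducible_of_smooth hn G d (by omega) hGd hsm
  let _ : Algebra (𝓞 K) F := ((algebraMap K F).comp (algebraMap (𝓞 K) K)).toAlgebra
  have hst : IsScalarTower (𝓞 K) K F := IsScalarTower.of_algebraMap_eq fun _ => rfl
  have hM : GoodModule (𝓞 K) x :=
    goodModule_of_locReg2 (K := K) G hirr.ne_zero d hGd hsm hloc x hx0 hrel hgen b htb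
  have hinj : Function.Injective (algebraMap (𝓞 K) F) := by
    rw [IsScalarTower.algebraMap_eq (𝓞 K) K F]
    exact (algebraMap K F).injective.comp (IsFractionRing.injective (𝓞 K) K)
  exact model_of_hasModule hinj (hasModule_of_good (K := K) x hx0 hgen hM)

end Pool.Agent.Run7.h802.HP
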