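import Pool.Agent.Run7.h802.HP.NodeReg
import Pool.Agent.TH214.RM.Glob

/-! The local module at a prime with a node. -/

set_option autoImplicit false
set_option linter.unusedSectionVars false
set_option linter.unusedVariables false

open scoped Pointwise

namespace Pool.Agent.Run7.h802.HP

open Pool.Agent.H918R2.Quad Pool.Agent.TH214.RM Pool.Agent.H945R2.E Pool.Agent.W418 MvPolynomial

theorem smooth_loc {O R ι : Type} [CommRing O] [CommRing R] [Algebra O R] [DecidableEq ι]
    (𝔭 : Ideal O) [𝔭.IsPrime] [IsLocalization.AtPrime R 𝔭] (G : MvPolynomial ι O) (s : ι)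
    (h : ∀ Q : Ideal (MvPolynomial {j : ι // j ≠ s} O), Q.IsPrime → (∀ r : O, C r ∈ Q ↔ r ∈ 𝔭) →
      deh s G ∈ Q → ∃ j, pderiv j (deh s G) ∉ Q)
    (Q : Ideal (MvPolynomial {j : ι // j ≠ s} R)) (hQ : Q.IsPrime)
    (hG : deh s (map (algebraMap O R) G) ∈ Q) (hCQ : ∀ r : R, C r ∈ Q ↔ ¬ IsUnit r) :
    ∃ j, pderiv j (deh s (map (algebraMap O R) G)) ∉ Q := by
  set φ : MvPolynomial {j : ι // j ≠ s} O →+* MvPolynomial {j : ι // j ≠ s} R :=
    map (algebraMap O R) with hφ
  have hp : (Q.comap φ).IsPrime := Ideal.comap_isPrime _ _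
  have hC : ∀ r : O, C r ∈ Q.comap φ ↔ r ∈ 𝔭 := by
    intro r
    rw [Ideal.mem_comap, hφ, map_C, hCQ, IsLocalization.AtPrime.isUnit_to_map_iff R 𝔭 r]
    simp
  have hdeh : φ (deh s G) = deh s (map (algebraMap O R) G) := map_deh _ _ _
  have hE : deh s G ∈ Q.comap φ := by
    rw [Ideal.mem_comap, hdeh]
    exact hG
  obtain ⟨j, hj⟩ := h (Q.comap φ) hp hC hE
  refine ⟨j, fun h2 => hj ?_⟩
  rw [Ideal.mem_comap, hφ, ← pderiv_map, ← hφ, hdeh]
  exact h2

/-- The elements of `O` in a power of the maximal ideal of the localization. -/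
theorem mem_pow_of_loc {O R : Type} [CommRing O] [CommRing R] [Algebra O R]
    (𝔭 : Ideal O) [h𝔭 : 𝔭.IsMaximal] [IsLocalization.AtPrime R 𝔭] (c : O) (N : ℕ)
    (h : algebraMap O R c ∈ (𝔭.map (algebraMap O R)) ^ N) : c ∈ 𝔭 ^ N := by
  rw [← Ideal.map_pow] at h
  rw [IsLocalization.mem_map_algebraMap_iff 𝔭.primeCompl] at h
  obtain ⟨⟨⟨j, hj⟩, s⟩, hs⟩ := h
  simp only at hs
  rw [← map_mul] at hs
  obtain ⟨t, ht⟩ := (IsLocalization.eq_iff_exists 𝔭.primeCompl _).1 hs
  have h1 : (t : O) * s * c ∈ 𝔭 ^ N := by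
    have : (t : O) * s * c = t * j := by rw [← ht]; ring
    rw [this]
    exact Ideal.mul_mem_left _ _ hj
  have h2 : (t : O) * s ∉ 𝔭 := (t * s).2
  have h3 : Ideal.span {(t : O) * s} ⊔ 𝔭 = ⊤ := by
    obtain ⟨y, i, hi, hyi⟩ := h𝔭.exists_inv h2
    rw [Ideal.eq_top_iff_one, ← hyi]
    exact Ideal.add_mem _ (Ideal.mem_sup_left (Ideal.mul_mem_left _ _
      (Ideal.mem_span_singleton_self _))) (Ideal.mem_sup_right hi)
  have h4 : Ideal.span {(t : O) * s} ⊔ 𝔭 ^ N = ⊤ := Ideal.sup_pow_eq_top h3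
  have h5 : (1 : O) ∈ Ideal.span {(t : O) * s} ⊔ 𝔭 ^ N := by rw [h4]; trivial
  obtain ⟨y, hy, z, hz, hyz⟩ := Submodule.mem_sup.1 h5
  obtain ⟨w, rfl⟩ := Ideal.mem_span_singleton.1 hy
  have h6 : c = w * ((t : O) * s * c) + c * z := by linear_combination (-c) * hyz
  rw [h6]
  exact Ideal.add_mem _ (Ideal.mul_mem_left _ _ h1) (Ideal.mul_mem_left _ _ hz)

/-- The weights. -/
def lamD (m D : ℕ) (t : Fin D) : ℕ := if (t : ℕ) ≤ m then t else 0

section

variable {O K F : Type} [CommRing O] [IsDedekindDomain O] [Field K] [Algebra O K]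
  [IsFractionRing O K] [Field F] [Algebra K F] [Algebra O F] [IsScalarTower O K F]

include K in
theorem locMod_node (𝔭 : Ideal O) [h𝔭 : 𝔭.IsMaximal] (h0 : 𝔭 ≠ ⊥) {n : ℕ}
    (G : MvPolynomial (Fin (n + 2)) O) (hG0 : G ≠ 0) (d : ℕ) (hGd : G.IsHomogeneous d)
    (k : ℕ) (hk : 1 ≤ k) (hc : constantCoeff (deh 0 G) ∈ 𝔭 ^ k)
    (hc' : constantCoeff (deh 0 G) ∉ 𝔭 ^ (k + 1))
    (hl : ∀ i, constantCoeff (pderiv i (deh 0 G)) ∈ 𝔭 ^ (k + 1))
    (hq : Matrix.det (Matrix.of fun i j => constantCoeff (pderiv i (pderiv j (deh 0 G)))) ∉ 𝔭)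
    (hSM : ∀ (s : Fin (n + 2)), s ≠ 0 → ∀ Q : Ideal (MvPolynomial {i : Fin (n + 2) // i ≠ s} O),
      Q.IsPrime → (∀ r : O, C r ∈ Q ↔ r ∈ 𝔭) → deh s G ∈ Q → ∃ j, pderiv j (deh s G) ∉ Q)
    (x : Fin (n + 2) → F) (hx0 : x 0 = 1)
    (hgen : IntermediateField.adjoin K (Set.range x) = ⊤)
    (b : Fin n → F) (htb : IsTranscendenceBasis K b)
    (x' : Fin (n + 2) → F) (v : Fin (n + 2) → Fin (n + 2) → K)
    (hv : ∀ i, x i = ∑ j, algebraMap K F (v i j) * x' j) (hrel : aeval x' G = 0) :
    LocMod 𝔭 x' := by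
  classical
  let R := Localization.subalgebra.ofField K 𝔭.primeCompl 𝔭.primeCompl_le_nonZeroDivisors
  have : IsLocalization.AtPrime R 𝔭 := Localization.subalgebra.isLocalization_ofField K _ _
  have : IsFractionRing R K := Localization.subalgebra.isFractionRing_ofField K _ _
  have : IsDedekindDomain R := IsLocalization.isDedekindDomain O
    𝔭.primeCompl_le_nonZeroDivisors R
  have : IsDiscreteValuationRing R :=
    IsLocalization.AtPrime.isDiscreteValuationRing_of_dedekind_domain O h0 R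
  have : IsScalarTower O R F := IsScalarTower.of_algebraMap_eq fun r => by
    rw [IsScalarTower.algebraMap_apply O K F]; rfl
  have : IsScalarTower R K F := IsScalarTower.of_algebraMap_eq fun r => rfl
  obtain ⟨π, hπ⟩ := IsDiscreteValuationRing.exists_irreducible R
  have hinjOR : Function.Injective (algebraMap O R) :=
    IsLocalization.injective R 𝔭.primeCompl_le_nonZeroDivisors
  have hinjRK : Function.Injective (algebraMap R K) := IsFractionRing.injective R K
  have hinj : Function.Injective (algebraMap R F) := by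
    rw [IsScalarTower.algebraMap_eq R K F]
    exact (algebraMap K F).injective.comp hinjRK
  have hπF : algebraMap R F π ≠ 0 := fun h => hπ.ne_zero (hinj (by rw [h, map_zero]))
  have hRKF : ∀ r : R, algebraMap R F r = algebraMap K F (algebraMap R K r) :=
    fun r => IsScalarTower.algebraMap_apply R K F r
  have hmapmax : 𝔭.map (algebraMap O R) = Ideal.span {π} := by
    rw [← hπ.maximalIdeal_eq]
    exact IsLocalization.AtPrime.map_eq_maximalIdeal 𝔭 R
  have hpow : ∀ (N : ℕ) (c : O), c ∈ 𝔭 ^ N → π ^ N ∣ algebraMap O R c := by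
    intro N c hc
    rw [← Ideal.mem_span_singleton, ← Ideal.span_singleton_pow, ← hmapmax, ← Ideal.map_pow]
    exact Ideal.mem_map_of_mem _ hc
  have hpow' : ∀ (N : ℕ) (c : O), π ^ N ∣ algebraMap O R c → c ∈ 𝔭 ^ N := by
    intro N c hc
    apply mem_pow_of_loc (R := R) 𝔭
    rw [hmapmax, Ideal.span_singleton_pow, Ideal.mem_span_singleton]
    exact hc
  set m := k / 2 with hm
  set bb := k % 2 with hbb
  have hk2 : k = 2 * m + bb := by omega
  set GR := map (algebraMap O R) G with hGR
  have hdehR : deh 0 GR = map (algebraMap O R) (deh 0 G) := (map_deh _ _ _).symm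
  obtain ⟨c, l, q, hc1, hl1, hq1, htay⟩ := tay (deh 0 GR)
  have hcc : c = algebraMap O R (constantCoeff (deh 0 G)) := by
    rw [hc1, hdehR, constantCoeff_map]
  obtain ⟨u, hu⟩ := hpow k _ hc
  have hu' : IsUnit u := by
    by_contra hnu
    apply hc'
    apply hpow'
    rw [hu, pow_succ]
    apply mul_dvd_mul_left
    have h1 : u ∈ IsLocalRing.maximalIdeal R := hnu
    rwa [hπ.maximalIdeal_eq, Ideal.mem_span_singleton] at h1
  have hl2 : ∀ i, ∃ r, l i = π ^ (k + 1) * r := by
    intro i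
    rw [hl1, hdehR, pderiv_map, constantCoeff_map]
    exact hpow _ _ (hl i)
  choose l' hl' using hl2
  have hqu : IsUnit (Matrix.det (Matrix.of fun i j => q i j + q j i)) := by
    have h1 : (Matrix.of fun i j => q i j + q j i) =
        (algebraMap O R).mapMatrix
          (Matrix.of fun i j => constantCoeff (pderiv i (pderiv j (deh 0 G)))) := by
      ext i j
      rw [Matrix.of_apply, hq1, hdehR, pderiv_map, pderiv_map, constantCoeff_map]
      rfl
    rw [h1, ← RingHom.map_det]
    exact IsLocalization.map_units R (⟨_, hq⟩ : 𝔭.primeCompl)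
  have hcu : c = π ^ (2 * m + bb) * u := by rw [hcc, hu, ← hk2]
  have hlu : l = fun i => π ^ (2 * m + bb + 1) * l' i := by
    funext i
    rw [hl', ← hk2]
  rw [hcu, hlu] at htay
  have hGR0 : GR ≠ 0 := fun h => hG0 (map_injective _ hinjOR (by rw [← hGR, h, map_zero]))
  have hGRd : GR.IsHomogeneous d := hGd.map _
  have hrel' : aeval x' GR = 0 := by
    rw [hGR, aeval_map_algebraMap, hrel]
  have hind : ∀ (N : ℕ) (s : Fin (n + 2)), zN π x' N s ≠ 0 → ∃ j₀ : {i : Fin (n + 2) // i ≠ s},
      AlgebraicIndependent R (fun i : {i : {i : Fin (n + 2) // i ≠ s} // i ≠ j₀} =>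
        zN π x' N i / zN π x' N s) := by
    intro N s hs
    have hπK : algebraMap R K π ≠ 0 := fun h => hπ.ne_zero (hinjRK (by rw [h, map_zero]))
    obtain ⟨j₀, hj₀⟩ := hind_of (K := K) (ι := Fin (n + 2)) (by simp) x hx0 hgen b htb
      (zN π x' N) (fun i j => if j = 0 then v i j * ((algebraMap R K π) ^ N)⁻¹ else v i j) (by
        intro i
        rw [hv]
        refine Finset.sum_congr rfl fun j _ => ?_
        by_cases h : j = 0
        · subst h
          rw [if_pos rfl, zN_zero, hRKF, map_mul, map_inv₀, map_pow]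
          have h1 : algebraMap K F (algebraMap R K π) ^ N ≠ 0 := by
            rw [← hRKF]
            exact pow_ne_zero _ hπF
          field_simp
        · rw [if_neg h, zN_ne _ _ _ _ h]) s hs
    exact ⟨j₀, hj₀.restrictScalars hinjRK⟩
  have hzspan : ∀ N i, zN π x' N i ∈ Submodule.span R (Set.range x') := by
    intro N i
    by_cases h : i = 0
    · subst h
      rw [zN_zero, ← map_pow, ← Algebra.smul_def]
      exact Submodule.smul_mem _ _ (Submodule.subset_span ⟨0, rfl⟩)
    · rw [zN_ne _ _ _ _ h]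
      exact Submodule.subset_span ⟨i, rfl⟩
  refine ⟨m + 1, fun D hD => ?_⟩
  have hGsle : Submodule.span R (Gs π x' (lamD m D)) ≤ Submodule.span R (Set.range x' ^ D) := by
    rw [Submodule.span_le]
    rintro _ ⟨φ, rfl⟩
    rw [← Submodule.span_pow]
    have h1 : ∀ s : Finset (Fin D), ∏ t ∈ s, zN π x' (lamD m D t) (φ t) ∈
        Submodule.span R (Set.range x') ^ s.card := by
      intro s
      induction s using Finset.induction_on with
      | empty =>
        simp only [Finset.prod_empty, Finset.card_empty, pow_zero]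
        exact Submodule.one_le.1 le_rfl
      | insert t s hts ih =>
        rw [Finset.prod_insert hts, Finset.card_insert_of_notMem hts, pow_succ']
        exact Submodule.mul_mem_mul (hzspan _ _) ih
    have h2 := h1 Finset.univ
    rwa [Finset.card_univ, Fintype.card_fin] at h2
  refine ⟨(Submodule.span R (Gs π x' (lamD m D))).restrictScalars O, ?_, ?_, ?_⟩
  · intro y hy
    exact clear_denom (R := R) 𝔭 (Set.range x' ^ D) y (hGsle hy)
  · refine ⟨m * D, fun c hc y hy => ?_⟩
    obtain ⟨r, hr⟩ := hpow _ _ hc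
    have hle : ∀ t : Fin D, lamD m D t ≤ m := by
      intro t
      unfold lamD
      split_ifs with h
      · exact h
      · exact Nat.zero_le _
    have hgen' : ∀ y ∈ Set.range x' ^ D, algebraMap R F π ^ (m * D) * y ∈
        Submodule.span R (Gs π x' (lamD m D)) := by
      intro y hy
      obtain ⟨φ, rfl⟩ := (Pool.Agent.H945R2.D.GD1aux.mem_range_pow x' D y).1 hy
      have h1 : ∀ t, ∃ r : R, algebraMap R F π ^ m * x' (φ t) =
          algebraMap R F r * zN π x' (lamD m D t) (φ t) := by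
        intro t
        by_cases h : φ t = 0
        · refine ⟨π ^ (m - lamD m D t), ?_⟩
          rw [h, zN_zero, map_pow, ← mul_assoc, ← pow_add, Nat.sub_add_cancel (hle t)]
        · refine ⟨π ^ m, ?_⟩
          rw [zN_ne _ _ _ _ h, map_pow]
      choose r' hr' using h1
      have h2 : algebraMap R F π ^ (m * D) * ∏ t, x' (φ t) =
          algebraMap R F (∏ t, r' t) * ∏ t, zN π x' (lamD m D t) (φ t) := by
        rw [map_prod, ← Finset.prod_mul_distrib, ← Finset.prod_congr rfl fun t _ => hr' t,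
          Finset.prod_mul_distrib, Finset.prod_const, Finset.card_univ, Fintype.card_fin,
          ← pow_mul]
      rw [h2, ← Algebra.smul_def]
      exact Submodule.smul_mem _ _ (Submodule.subset_span ⟨φ, rfl⟩)
    show c • y ∈ Submodule.span R (Gs π x' (lamD m D))
    induction hy using Submodule.span_induction with
    | mem y hy =>
      rw [Algebra.smul_def, IsScalarTower.algebraMap_apply O R F, hr, map_mul, map_pow,
        mul_comm (algebraMap R F π ^ _), mul_assoc, ← Algebra.smul_def]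
      exact Submodule.smul_mem _ _ (hgen' y hy)
    | zero => rw [smul_zero]; exact Submodule.zero_mem _
    | add a b _ _ ha hb => rw [smul_add]; exact Submodule.add_mem _ ha hb
    | smul o a _ ha =>
      rw [smul_comm, ← algebraMap_smul R o (c • a)]
      exact Submodule.smul_mem _ _ ha
  · intro M hMP hM2 f hfM hf q' hqp hq'
    obtain ⟨𝒪, hloc, hR, hRU, hloc2, hG, hreg⟩ := transfer (R := R) 𝔭 M (Gs π x' (lamD m D))
      (fun y hy => hMP hy) (fun y hy => hM2 y hy) f q' hq'
    apply hreg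
    refine node_reg hinj 𝒪 hloc hR hRU π hπ (lamD m D) m bb (by omega) (by omega) ?_ ?_ GR hGR0 d
      hGRd u hu' l' q htay hqu ?_ x' hrel' hind f hf (hMP hfM) hG hloc2
    · intro j hj
      refine ⟨⟨j, by omega⟩, ?_⟩
      unfold lamD
      rw [if_pos hj]
    · intro t
      unfold lamD
      split_ifs with h
      · exact h
      · exact Nat.zero_le _
    · intro s hs Q hQ hGQ hCQ
      exact smooth_loc 𝔭 G s (hSM s hs) Q hQ hGQ hCQ

end

end Pool.Agent.Run7.h802.HP
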