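import Pool.Agent.Run7.h802.HP.Points

/-! From nodal reductions to nodal equations. -/

set_option autoImplicit false
set_option linter.unusedSectionVars false
set_option linter.unusedVariables false

namespace Pool.Agent.Run7.h802.HP

open Pool.Agent.H918R2.Quad Pool.Agent.TH214.RM MvPolynomial

section

variable {O : Type} [CommRing O] {n : ℕ}

theorem const_shG (x : Fin (n + 2) → O) (hx : x 0 = 1) (P : MvPolynomial (Fin (n + 2)) O) :
    constantCoeff (deh 0 (shG x P)) = eval x P := by
  induction P using MvPolynomial.induction_on with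
  | C a => simp [shG, deh]
  | add p q hp hq =>
    simp only [shG, deh, map_add] at hp hq ⊢
    rw [hp, hq]
  | mul_X p i hp =>
    simp only [shG, deh, map_mul, aeval_X, eval_X] at hp ⊢
    rw [hp]
    congr 1
    unfold shf
    by_cases h : i = 0
    · rw [if_pos h, h, aeval_X]
      unfold tau
      rw [dif_pos rfl, map_one, hx]
    · rw [if_neg h, map_add, map_mul, aeval_X, aeval_X, aeval_C]
      unfold tau
      rw [dif_neg h, dif_pos rfl]
      simp

theorem eval_shG {κ : Type} [Field κ] (f : O →+* κ) (x : Fin (n + 2) → O) (y : Fin (n + 2) → κ)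
    (P : MvPolynomial (Fin (n + 2)) O) :
    eval₂ f y (shG x P) = eval₂ f (fun i => if i = 0 then y 0 else y i + f (x i) * y 0) P := by
  unfold shG
  rw [aeval_def, ← coe_eval₂Hom, ← coe_eval₂Hom, ← coe_eval₂Hom, ← RingHom.comp_apply]
  congr 1
  apply MvPolynomial.ringHom_ext
  · intro r
    simp
  · intro i
    rw [RingHom.comp_apply]
    simp only [coe_eval₂Hom, eval₂_X]
    unfold shf
    by_cases h : i = 0
    · rw [if_pos h, if_pos h, eval₂_X]
    · rw [if_neg h, if_neg h, eval₂_add, eval₂_mul, eval₂_X, eval₂_X, eval₂_C]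

theorem nodeEq_of_points (𝔭 : Ideal O) (G : MvPolynomial (Fin (n + 2)) O) (d : ℕ)
    (hG : G.IsHomogeneous d) (x : Fin (n + 2) → O) (hx : x 0 = 1) (k : ℕ) (hk : 1 ≤ k)
    (h1 : eval x G ∈ 𝔭 ^ k) (h2 : eval x G ∉ 𝔭 ^ (k + 1))
    (h3 : ∀ i : Fin (n + 1), eval x (pderiv i.succ G) ∈ 𝔭 ^ (k + 1))
    (h4 : Matrix.det (Matrix.of fun i j : Fin (n + 1) =>
      eval x (pderiv i.succ (pderiv j.succ G))) ∉ 𝔭)
    (h5 : ∀ (κ : Type) [Field κ] (f : O →+* κ) (y : Fin (n + 2) → κ), (∀ r, f r = 0 ↔ r ∈ 𝔭) →
      SingP f G y → ∀ i, y i = y 0 * f (x i)) : NodeEq 𝔭 (shG x G) := by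
  have hd1 : ∀ (j : {i : Fin (n + 2) // i ≠ 0}) (P : MvPolynomial (Fin (n + 2)) O),
      pderiv j (deh 0 (shG x P)) = deh 0 (shG x (pderiv (j : Fin (n + 2)) P)) := by
    intro j P
    rw [pderiv_deh, pderiv_shG, if_neg j.2]
  refine ⟨k, hk, ?_, ?_, ?_, ?_, ?_⟩
  · rw [const_shG x hx]
    exact h1
  · rw [const_shG x hx]
    exact h2
  · intro i
    rw [hd1, const_shG x hx]
    have h := h3 ((i : Fin (n + 2)).pred i.2)
    rwa [Fin.succ_pred] at h
  · let e : Fin (n + 1) ≃ {i : Fin (n + 2) // i ≠ 0} :=
      { toFun := fun i => ⟨i.succ, Fin.succ_ne_zero i⟩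
        invFun := fun i => (i : Fin (n + 2)).pred i.2
        left_inv := fun i => by simp
        right_inv := fun i => by simp }
    rw [← Matrix.det_submatrix_equiv_self e]
    have h : (Matrix.of fun i j : {i : Fin (n + 2) // i ≠ 0} =>
        constantCoeff (pderiv i (pderiv j (deh 0 (shG x G))))).submatrix e e =
        Matrix.of fun i j : Fin (n + 1) => eval x (pderiv i.succ (pderiv j.succ G)) := by
      ext i j
      rw [Matrix.submatrix_apply, Matrix.of_apply, Matrix.of_apply, hd1, hd1, const_shG x hx]
      rfl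
    rw [h]
    exact h4
  · intro s hs Q hQ hCQ hGQ
    by_contra hcon
    push Not at hcon
    obtain ⟨κ, _, f, y, hf, hys, hy⟩ := point_of_prime 𝔭 (shG x G) d (shG_hom x G d hG) s Q hQ hCQ
      hGQ hcon
    set z : Fin (n + 2) → κ := fun i => if i = 0 then y 0 else y i + f (x i) * y 0 with hz
    have hzi : ∀ i : Fin (n + 2), i ≠ 0 → eval₂ f z (pderiv i G) = 0 := by
      intro i hi
      have h := hy.2 i
      rw [pderiv_shG, if_neg hi, eval_shG] at h
      exact h
    have hz0 : eval₂ f z (pderiv 0 G) = 0 := by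
      have h := hy.2 0
      rw [pderiv_shG, if_pos rfl, eval₂_add, eval_shG, eval₂_sum] at h
      rw [Finset.sum_eq_zero, add_zero] at h
      · exact h
      · intro i hi
        rw [eval₂_mul, eval_shG]
        change _ * eval₂ f z (pderiv i G) = 0
        rw [hzi i (Finset.ne_of_mem_erase hi), mul_zero]
    have hzS : SingP f G z := by
      refine ⟨?_, ?_⟩
      · have h := hy.1
        rw [eval_shG] at h
        exact h
      · intro i
        by_cases hi : i = 0
        · rw [hi]
          exact hz0
        · exact hzi i hi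
    have h := h5 κ f z hf hzS s
    rw [hz] at h
    simp only [if_neg hs, if_true] at h
    rw [hys] at h
    have h' : (1 : κ) = 0 := by linear_combination h
    exact one_ne_zero h'

end

/-- The matrix of the translation. -/
def Tm {K : Type} [Field K] {n : ℕ} (x : Fin (n + 2) → K) : Matrix (Fin (n + 2)) (Fin (n + 2)) K :=
  Matrix.of fun i j => (if i = j then 1 else 0) + if j = 0 then (if i = 0 then 0 else x i) else 0

theorem Tm_mul {K : Type} [Field K] {n : ℕ} (x : Fin (n + 2) → K) :
    Tm x * Tm (fun i => - x i) = 1 := by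
  ext i j
  rw [Matrix.mul_apply]
  have h : ∀ k, Tm x i k = (if i = k then 1 else 0) +
      if k = 0 then (if i = 0 then 0 else x i) else 0 := fun k => rfl
  simp only [h, add_mul, ite_mul, one_mul, zero_mul, Finset.sum_add_distrib, Finset.sum_ite_eq,
    Finset.sum_ite_eq', Finset.mem_univ, if_true]
  simp only [Tm, Matrix.of_apply, Matrix.one_apply]
  by_cases hj : j = 0
  · subst hj
    by_cases hi : i = 0
    · subst hi
      simp
    · simp [hi]
  · by_cases hi : i = 0
    · subst hi
      simp [hj]
    · simp [hj, hi, Ne.symm hj]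

theorem shG_eq {O K : Type} [CommRing O] [Field K] [Algebra O K] {n : ℕ} (x : Fin (n + 2) → O)
    (G : MvPolynomial (Fin (n + 2)) O) :
    map (algebraMap O K) (shG x G) = C 1 *
      aeval (fun i => ∑ j, C (Tm (fun i => algebraMap O K (x i)) i j) * X j)
        (map (algebraMap O K) G) := by
  rw [C_1, one_mul]
  unfold shG
  have h : (map (algebraMap O K) : MvPolynomial (Fin (n + 2)) O →+* _).comp
      ((aeval (shf x) : MvPolynomial (Fin (n + 2)) O →ₐ[O] MvPolynomial (Fin (n + 2)) O) :
        MvPolynomial (Fin (n + 2)) O →+* MvPolynomial (Fin (n + 2)) O) =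
      ((aeval (fun i => ∑ j, C (Tm (fun i => algebraMap O K (x i)) i j) * X j) :
        MvPolynomial (Fin (n + 2)) K →ₐ[K] MvPolynomial (Fin (n + 2)) K) :
        MvPolynomial (Fin (n + 2)) K →+* MvPolynomial (Fin (n + 2)) K).comp
        (map (algebraMap O K)) := by
    apply MvPolynomial.ringHom_ext
    · intro r
      simp
    · intro i
      simp only [RingHom.comp_apply, RingHom.coe_coe, aeval_X, map_X]
      have h1 : ∑ j, C (Tm (fun i => algebraMap O K (x i)) i j) * X j =
          X i + (C (if i = 0 then 0 else algebraMap O K (x i)) *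
            X 0 : MvPolynomial (Fin (n + 2)) K) := by
        simp only [Tm, Matrix.of_apply, C_add, add_mul, Finset.sum_add_distrib]
        congr 1
        · rw [Finset.sum_eq_single i]
          · simp
          · intro j _ hj
            rw [if_neg (Ne.symm hj), C_0, zero_mul]
          · intro h
            exact absurd (Finset.mem_univ i) h
        · rw [Finset.sum_eq_single 0]
          · rw [if_pos rfl]
          · intro j _ hj
            rw [if_neg hj, C_0, zero_mul]
          · intro h
            exact absurd (Finset.mem_univ _) h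
      rw [h1]
      unfold shf
      by_cases hi : i = 0
      · rw [if_pos hi, if_pos hi, map_X, hi, C_0, zero_mul, add_zero]
      · rw [if_neg hi, if_neg hi, map_add, map_mul, map_C, map_X, map_X]
  exact congrArg (fun f => f G) h

end Pool.Agent.Run7.h802.HP
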