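import Pool.Agent.Run7.h802.HP.CaseB2

/-! All local rings over the prime. -/

set_option autoImplicit false
set_option linter.unusedSectionVars false
set_option linter.unusedVariables false

namespace Pool.Agent.Run7.h802.HP

open Pool.Agent.H918R2.Quad Pool.Agent.TH214.RM MvPolynomial

theorem zN_zero {R F : Type} [CommRing R] [Field F] [Algebra R F] {n : ℕ} (π : R)
    (x : Fin (n + 2) → F) (N : ℕ) : zN π x N 0 = algebraMap R F π ^ N * x 0 := if_pos rfl

theorem zN_ne {R F : Type} [CommRing R] [Field F] [Algebra R F] {n : ℕ} (π : R)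
    (x : Fin (n + 2) → F) (N : ℕ) (i : Fin (n + 2)) (h : i ≠ 0) : zN π x N i = x i := if_neg h

theorem zN_0 {R F : Type} [CommRing R] [Field F] [Algebra R F] {n : ℕ} (π : R)
    (x : Fin (n + 2) → F) (i : Fin (n + 2)) : zN π x 0 i = x i := by
  unfold zN
  split_ifs with h
  · rw [h, pow_zero, one_mul]
  · rfl

theorem node_reg {R F : Type} [CommRing R] [IsDomain R] [IsDiscreteValuationRing R] [Field F]
    [Algebra R F] (hinj : Function.Injective (algebraMap R F)) (𝒪 : Subring F) (hloc : IsLoc 𝒪)
    (hR : ∀ r : R, algebraMap R F r ∈ 𝒪) (hRU : ∀ r : R, U 𝒪 (algebraMap R F r) → IsUnit r)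
    (π : R) (hπ : Irreducible π) {n D : ℕ} (lam : Fin D → ℕ) (m b : ℕ) (hb : b ≤ 1)
    (hmb : 1 ≤ m + b) (hlam : ∀ j, j ≤ m → ∃ t, lam t = j) (hlam2 : ∀ t, lam t ≤ m)
    (G : MvPolynomial (Fin (n + 2)) R) (hG0 : G ≠ 0) (d : ℕ) (hGd : G.IsHomogeneous d)
    (u : R) (hu : IsUnit u) (l : {i : Fin (n + 2) // i ≠ 0} → R)
    (q : {i : Fin (n + 2) // i ≠ 0} → {i : Fin (n + 2) // i ≠ 0} → R)
    (htay : Tay (deh 0 G) (π ^ (2 * m + b) * u) (fun i => π ^ (2 * m + b + 1) * l i) q)
    (hq : IsUnit (Matrix.det (Matrix.of fun i j => q i j + q j i)))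
    (hSM : ∀ (s : Fin (n + 2)), s ≠ 0 → ∀ Q : Ideal (MvPolynomial {i : Fin (n + 2) // i ≠ s} R),
      Q.IsPrime → deh s G ∈ Q → (∀ r : R, C r ∈ Q ↔ ¬ IsUnit r) → ∃ j, pderiv j (deh s G) ∉ Q)
    (x : Fin (n + 2) → F) (hrel : aeval x G = 0)
    (hind : ∀ (N : ℕ) (s : Fin (n + 2)), zN π x N s ≠ 0 → ∃ j₀ : {i : Fin (n + 2) // i ≠ s},
      AlgebraicIndependent R (fun i : {i : {i : Fin (n + 2) // i ≠ s} // i ≠ j₀} =>
        zN π x N i / zN π x N s))
    (f : F) (hf : f ≠ 0) (hfG : f ∈ Submodule.span R (Gs π x lam))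
    (hG : ∀ g ∈ Gs π x lam, g / f ∈ 𝒪)
    (hloc2 : IsLocOf 𝒪 (chart R (Submodule.span R (Gs π x lam)) f)) :
    IsRegularLocalRing 𝒪 := by
  classical
  have hπF : algebraMap R F π ≠ 0 := fun h => hπ.ne_zero (hinj (by rw [h, map_zero]))
  have hπa : ∀ N, algebraMap R F π ^ N ≠ 0 := fun N => pow_ne_zero N hπF
  have hπO : ∀ N, algebraMap R F π ^ N ∈ 𝒪 := fun N => 𝒪.pow_mem (hR π) N
  obtain ⟨φ, hφ0, hφU, hφ⟩ := exists_phi hloc hR f hf hfG hG
  obtain ⟨t₀, ht₀⟩ := hlam 0 (Nat.zero_le _)
  have hy0 : x (φ t₀) ≠ 0 := by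
    have := hφ0 t₀
    rwa [ht₀, zN_0] at this
  have hyi : ∀ i, x i / x (φ t₀) ∈ 𝒪 := by
    intro i
    have := hφ t₀ i
    rwa [ht₀, zN_0, zN_0] at this
  by_cases hA : ∃ s : Fin (n + 2), s ≠ 0 ∧ U 𝒪 (x s / x (φ t₀))
  · -- outside of the node
    obtain ⟨s, hs0, hsU⟩ := hA
    have hs : x s ≠ 0 := fun h => hsU.1 (by rw [h, zero_div])
    have hxs : ∀ i, x i / x s ∈ 𝒪 := by
      intro i
      have h1 : x i / x s = (x i / x (φ t₀)) * (x s / x (φ t₀))⁻¹ := by field_simp
      rw [h1]
      exact 𝒪.mul_mem (hyi i) hsU.2.2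
    have hzx : ∀ N i, zN π x N i / x s ∈ 𝒪 := by
      intro N i
      by_cases h : i = 0
      · subst h
        rw [zN_zero, mul_div_assoc]
        exact 𝒪.mul_mem (hπO N) (hxs 0)
      · rw [zN_ne _ _ _ _ h]
        exact hxs i
    obtain ⟨j₀, hj₀⟩ := hind 0 s (by rw [zN_0]; exact hs)
    simp only [zN_0] at hj₀
    refine caseA 𝒪 hloc hR hRU G hG0 d hGd x hrel s hs hxs j₀ hj₀ ?_ (hSM s hs0)
    have heW : ∀ w : MvPolynomial {i : Fin (n + 2) // i ≠ s} R,
        aeval (fun i : {i : Fin (n + 2) // i ≠ s} => x i / x s) w ∈ 𝒪 := by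
      intro w
      induction w using MvPolynomial.induction_on with
      | C r => rw [aeval_C]; exact hR r
      | add p q hp hq => rw [map_add]; exact 𝒪.add_mem hp hq
      | mul_X p j hp => rw [map_mul, aeval_X]; exact 𝒪.mul_mem hp (hxs _)
    refine frac_phi f hf hfG hloc2 φ hφU (fun _ => x s) (fun _ => hs) ?_ _ heW ?_
    · intro t
      refine ⟨div_ne_zero (hφ0 t) hs, hzx _ _, ?_⟩
      rw [inv_div]
      have h1 := hφ t s
      rwa [zN_ne _ _ _ _ hs0] at h1
    · intro t i
      have htau : aeval (fun i : {i : Fin (n + 2) // i ≠ s} => x i / x s) (tau (R := R) s i) =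
          x i / x s := aeval_tau' s (fun i => x i / x s) (div_self hs) i
      by_cases h : i = 0
      · refine ⟨C (π ^ lam t) * tau s i, ?_⟩
        rw [map_mul, htau, aeval_C, map_pow, h, zN_zero]
        field_simp
      · refine ⟨tau s i, ?_⟩
        rw [htau, zN_ne _ _ _ _ h]
        field_simp
  · push Not at hA
    have hφ00 : φ t₀ = 0 := by
      by_contra h
      refine hA (φ t₀) h ?_
      rw [div_self hy0]
      exact U_one
    rw [hφ00] at hy0 hyi hA
    let S : ℕ → Prop := fun j => ∀ i : {i : Fin (n + 2) // i ≠ 0},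
      x i / (algebraMap R F π ^ j * x 0) ∈ 𝒪
    have hS0 : S 0 := by
      intro i
      rw [pow_zero, one_mul]
      exact hyi i
    have hSmono : ∀ a N, N ≤ a → S a → S N := by
      intro a N hN hS i
      have h1 : x i / (algebraMap R F π ^ N * x 0) =
          algebraMap R F π ^ (a - N) * (x i / (algebraMap R F π ^ a * x 0)) := by
        have h2 : algebraMap R F π ^ a = algebraMap R F π ^ (a - N) * algebraMap R F π ^ N := by
          rw [← pow_add, Nat.sub_add_cancel hN]
        rw [h2]
        have := hπa N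
        have := hπa (a - N)
        field_simp
      rw [h1]
      exact 𝒪.mul_mem (hπO _) (hS i)
    set a := Nat.findGreatest S m with ha
    have hSa : S a := Nat.findGreatest_spec (P := S) (m := 0) (Nat.zero_le _) hS0
    have ham : a ≤ m := Nat.findGreatest_le m
    -- the units for the small weights
    have hsmall : ∀ t, lam t ≤ a →
        U 𝒪 (zN π x (lam t) (φ t) / (algebraMap R F π ^ lam t * x 0)) := by
      intro t ht
      refine ⟨div_ne_zero (hφ0 t) (mul_ne_zero (hπa _) hy0), ?_, ?_⟩
      · by_cases h : φ t = 0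
        · rw [h, zN_zero, div_self (mul_ne_zero (hπa _) hy0)]
          exact 𝒪.one_mem
        · rw [zN_ne _ _ _ _ h]
          exact hSmono a _ ht hSa ⟨φ t, h⟩
      · rw [inv_div]
        have h1 := hφ t 0
        rwa [zN_zero] at h1
    rcases Nat.lt_or_ge a m with hlt | hge
    · -- intermediate
      obtain ⟨c, hc⟩ : ∃ c, m = a + c + 1 := ⟨m - a - 1, by omega⟩
      have hnS : ¬ S (a + 1) := Nat.findGreatest_is_greatest (P := S) (n := m) (by omega) (by omega)
      obtain ⟨t₁, ht₁⟩ := hlam (a + 1) (by omega)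
      have hφ1 : φ t₁ ≠ 0 := by
        intro h
        apply hnS
        intro i
        have h1 := hφ t₁ i
        rwa [h, ht₁, zN_zero, zN_ne _ _ _ _ i.2] at h1
      set s : {i : Fin (n + 2) // i ≠ 0} := ⟨φ t₁, hφ1⟩ with hs'
      have hs : x s ≠ 0 := by
        have h1 := hφ0 t₁
        rwa [zN_ne _ _ _ _ hφ1] at h1
      have hv : ∀ i : {i : Fin (n + 2) // i ≠ 0}, x i / x s ∈ 𝒪 := by
        intro i
        have h1 := hφ t₁ i
        rwa [zN_ne _ _ _ _ hφ1, zN_ne _ _ _ _ i.2] at h1
      have hwO : algebraMap R F π ^ (a + 1) * x 0 / x s ∈ 𝒪 := by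
        have h1 := hφ t₁ 0
        rwa [zN_ne _ _ _ _ hφ1, zN_zero, ht₁] at h1
      have hw0 : ¬ U 𝒪 (algebraMap R F π ^ (a + 1) * x 0 / x s) := by
        intro hU
        apply hnS
        intro i
        have h1 : x i / (algebraMap R F π ^ (a + 1) * x 0) =
            (x i / x s) * (algebraMap R F π ^ (a + 1) * x 0 / x s)⁻¹ := by
          have := hπa (a + 1)
          field_simp
        rw [h1]
        exact 𝒪.mul_mem (hv i) hU.2.2
      obtain ⟨j₀, hj₀⟩ := hind (a + 1) s (by rw [zN_ne _ _ _ _ s.2]; exact hs)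
      have heW : ∀ w : MvPolynomial (Option (Option {i : {i : Fin (n + 2) // i ≠ 0} // i ≠ s})) R,
          aeval (eB π x a s) w ∈ 𝒪 := by
        intro w
        induction w using MvPolynomial.induction_on with
        | C r => rw [aeval_C]; exact hR r
        | add p q hp hq => rw [map_add]; exact 𝒪.add_mem hp hq
        | mul_X p j hp =>
          rw [map_mul, aeval_X]
          refine 𝒪.mul_mem hp ?_
          rcases j with _ | _ | j
          · exact hSa s
          · exact hwO
          · exact hv _
      have heV : ∀ i, aeval (eB π x a s) (Vc R s i) = x i / x s := by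
        intro i
        unfold Vc
        split_ifs with h
        · rw [map_one, h, div_self hs]
        · exact aeval_X _ _
      have hez : aeval (eB π x a s) (X none : MvPolynomial
          (Option (Option {i : {i : Fin (n + 2) // i ≠ 0} // i ≠ s})) R) =
          x s / (algebraMap R F π ^ a * x 0) := aeval_X _ _
      have hew : aeval (eB π x a s) (X (some none) : MvPolynomial
          (Option (Option {i : {i : Fin (n + 2) // i ≠ 0} // i ≠ s})) R) =
          algebraMap R F π ^ (a + 1) * x 0 / x s := aeval_X _ _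
      refine caseB2 𝒪 hloc hR π hπ hπF G hG0 d hGd a c b u l q ?_ hq x hrel hy0 s hs (hSa s) ?_
        hwO hw0 hv j₀ hj₀ ?_
      · rw [← hc]
        exact htay
      · intro ha0
        rw [ha0, pow_zero, one_mul]
        exact hA s s.2
      · refine frac_phi f hf hfG hloc2 φ hφU
          (fun t => if lam t ≤ a then algebraMap R F π ^ lam t * x 0 else x s) ?_ ?_ _ heW ?_
        · intro t
          split_ifs
          · exact mul_ne_zero (hπa _) hy0
          · exact hs
        · intro t
          split_ifs with h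
          · exact hsmall t h
          · refine ⟨div_ne_zero (hφ0 t) hs, ?_, ?_⟩
            · by_cases h0 : φ t = 0
              · rw [h0, zN_zero]
                have h1 : algebraMap R F π ^ lam t * x 0 / x s =
                    algebraMap R F π ^ (lam t - (a + 1)) *
                      (algebraMap R F π ^ (a + 1) * x 0 / x s) := by
                  have h2 : algebraMap R F π ^ lam t =
                      algebraMap R F π ^ (lam t - (a + 1)) * algebraMap R F π ^ (a + 1) := by
                    rw [← pow_add, Nat.sub_add_cancel (by omega)]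
                  rw [h2]
                  ring
                rw [h1]
                exact 𝒪.mul_mem (hπO _) hwO
              · rw [zN_ne _ _ _ _ h0]
                exact hv ⟨φ t, h0⟩
            · rw [inv_div]
              have h1 := hφ t s
              rwa [zN_ne _ _ _ _ s.2] at h1
        · intro t i
          split_ifs with h
          · by_cases h0 : i = 0
            · refine ⟨1, ?_⟩
              rw [map_one, mul_one, h0, zN_zero]
            · refine ⟨C (π ^ (a - lam t)) * X none * Vc R s ⟨i, h0⟩, ?_⟩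
              rw [map_mul, map_mul, aeval_C, hez, heV, zN_ne _ _ _ _ h0, map_pow]
              have h2 : algebraMap R F π ^ a =
                  algebraMap R F π ^ (a - lam t) * algebraMap R F π ^ lam t := by
                rw [← pow_add, Nat.sub_add_cancel h]
              rw [h2]
              have := hπa (lam t)
              have := hπa (a - lam t)
              field_simp
          · by_cases h0 : i = 0
            · refine ⟨C (π ^ (lam t - (a + 1))) * X (some none), ?_⟩
              rw [map_mul, aeval_C, hew, h0, zN_zero, map_pow]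
              have h2 : algebraMap R F π ^ lam t =
                  algebraMap R F π ^ (lam t - (a + 1)) * algebraMap R F π ^ (a + 1) := by
                rw [← pow_add, Nat.sub_add_cancel (by omega)]
              rw [h2]
              field_simp
            · refine ⟨Vc R s ⟨i, h0⟩, ?_⟩
              rw [heV, zN_ne _ _ _ _ h0]
              field_simp
    · -- last divisor
      have ham' : a = m := le_antisymm ham hge
      rw [ham'] at hSa hsmall
      obtain ⟨j₀, hj₀⟩ := hind m 0 (by rw [zN_zero]; exact mul_ne_zero (hπa _) hy0)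
      have hj₁ : (fun i : {i : {i : Fin (n + 2) // i ≠ 0} // i ≠ j₀} =>
          zN π x m i / zN π x m 0) = fun i : {i : {i : Fin (n + 2) // i ≠ 0} // i ≠ j₀} =>
          x i / (algebraMap R F π ^ m * x 0) := by
        funext i
        rw [zN_zero, zN_ne _ _ _ _ i.1.2]
      rw [hj₁] at hj₀
      have hπp : Prime π := hπ.prime
      have hπm : ∀ r : R, ¬ IsUnit r ↔ π ∣ r := by
        intro r
        rw [← Ideal.mem_span_singleton, ← hπ.maximalIdeal_eq]
        exact (IsLocalRing.mem_maximalIdeal r).symm
      have heW : ∀ w : MvPolynomial {i : Fin (n + 2) // i ≠ 0} R,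
          aeval (fun i : {i : Fin (n + 2) // i ≠ 0} =>
            x i / (algebraMap R F π ^ m * x 0)) w ∈ 𝒪 := by
        intro w
        induction w using MvPolynomial.induction_on with
        | C r => rw [aeval_C]; exact hR r
        | add p q hp hq => rw [map_add]; exact 𝒪.add_mem hp hq
        | mul_X p j hp => rw [map_mul, aeval_X]; exact 𝒪.mul_mem hp (hSa _)
      refine caseB1 𝒪 hloc hR hRU π hπp hπm hπF G hG0 d hGd m b hb hmb u hu l q htay hq x hrel hy0
        hSa ?_ j₀ hj₀ ?_
      · intro hm0 i
        rw [hm0, pow_zero, one_mul]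
        exact hA i i.2
      · refine frac_phi f hf hfG hloc2 φ hφU (fun t => algebraMap R F π ^ lam t * x 0)
          (fun t => mul_ne_zero (hπa _) hy0) (fun t => hsmall t (hlam2 t)) _ heW ?_
        intro t i
        by_cases h0 : i = 0
        · refine ⟨1, ?_⟩
          rw [map_one, mul_one, h0, zN_zero]
        · refine ⟨C (π ^ (m - lam t)) * X ⟨i, h0⟩, ?_⟩
          rw [map_mul, aeval_C, aeval_X, zN_ne _ _ _ _ h0, map_pow]
          have h2 : algebraMap R F π ^ m =
              algebraMap R F π ^ (m - lam t) * algebraMap R F π ^ lam t := by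
            rw [← pow_add, Nat.sub_add_cancel (hlam2 t)]
          rw [h2]
          have := hπa (lam t)
          have := hπa (m - lam t)
          field_simp

end Pool.Agent.Run7.h802.HP
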