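import Pool.Agent.Run7.h802.HP.Glob2

/-! From points over fields to the local conditions. -/

set_option autoImplicit false
set_option linter.unusedSectionVars false
set_option linter.unusedVariables false

namespace Pool.Agent.Run7.h802.HP

open Pool.Agent.H918R2.Quad Pool.Agent.TH214.RM MvPolynomial

/-- `y` is a singular zero of `G` over the field `κ`. -/
def SingP {O κ ι : Type} [CommRing O] [Field κ] (f : O →+* κ) (G : MvPolynomial ι O) (y : ι → κ) :
    Prop :=
  eval₂ f y G = 0 ∧ ∀ i, eval₂ f y (pderiv i G) = 0

/-- The point of a prime of a chart. -/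
theorem point_of_prime {O ι : Type} [CommRing O] [Fintype ι] [DecidableEq ι]
    (𝔭 : Ideal O) (G : MvPolynomial ι O) (d : ℕ) (hG : G.IsHomogeneous d) (s : ι)
    (Q : Ideal (MvPolynomial {j : ι // j ≠ s} O)) (hQ : Q.IsPrime)
    (hCQ : ∀ r : O, C r ∈ Q ↔ r ∈ 𝔭) (hGQ : deh s G ∈ Q)
    (hd : ∀ j : {j : ι // j ≠ s}, pderiv j (deh s G) ∈ Q) :
    ∃ (κ : Type) (_ : Field κ) (f : O →+* κ) (y : ι → κ), (∀ r, f r = 0 ↔ r ∈ 𝔭) ∧ y s = 1 ∧
      SingP f G y := by
  have hall := all_pderiv_mem G d hG s Q hGQ hd
  let A := MvPolynomial {j : ι // j ≠ s} O ⧸ Q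
  have : IsDomain A := Ideal.Quotient.isDomain Q
  let g : MvPolynomial {j : ι // j ≠ s} O →+* FractionRing A :=
    (algebraMap A (FractionRing A)).comp (Ideal.Quotient.mk Q)
  have hg : ∀ p, g p = 0 ↔ p ∈ Q := by
    intro p
    change algebraMap A (FractionRing A) (Ideal.Quotient.mk Q p) = 0 ↔ _
    rw [map_eq_zero_iff _ (IsFractionRing.injective A (FractionRing A)),
      Ideal.Quotient.eq_zero_iff_mem]
  have hev : ∀ P : MvPolynomial ι O, eval₂ (g.comp C) (fun i => g (tau s i)) P = g (deh s P) := by
    intro P
    unfold deh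
    rw [aeval_def, ← coe_eval₂Hom, ← coe_eval₂Hom, algebraMap_eq]
    have : (eval₂Hom (g.comp C) fun i => g (tau s i)) =
        g.comp (eval₂Hom C (tau (R := O) s)) := by
      apply MvPolynomial.ringHom_ext
      · intro r
        simp
      · intro i
        simp
    rw [this]
    rfl
  refine ⟨FractionRing A, inferInstance, g.comp C, fun i => g (tau s i), ?_, ?_, ?_, ?_⟩
  · intro r
    rw [RingHom.comp_apply, hg, hCQ]
  · have h3 : (tau s s : MvPolynomial {i : ι // i ≠ s} O) = 1 := by
      unfold tau
      rw [dif_pos rfl]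
    simp only [h3, map_one]
  · rw [hev, hg]
    exact hGQ
  · intro i
    rw [hev, hg]
    exact hall i

theorem crit_of_points {O ι : Type} [CommRing O] [Fintype ι] [DecidableEq ι]
    (𝔭 : Ideal O) (G : MvPolynomial ι O) (d : ℕ) (hG : G.IsHomogeneous d)
    (h : ∀ (κ : Type) [Field κ] (f : O →+* κ), (∀ r, f r = 0 ↔ r ∈ 𝔭) → ∀ y : ι → κ,
      SingP f G y → y = 0) : Crit 𝔭 G := by
  intro s Q hQ hCQ hGQ
  left
  by_contra hcon
  push Not at hcon
  obtain ⟨κ, _, f, y, hf, hys, hy⟩ := point_of_prime 𝔭 G d hG s Q hQ hCQ hGQ hcon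
  have h0 := h κ f hf y hy
  rw [h0] at hys
  exact zero_ne_one hys

/-- Smoothness over a field of characteristic zero. -/
theorem smooth_of_points {K ι : Type} [Field K] [CharZero K] [Fintype ι] [DecidableEq ι]
    (G : MvPolynomial ι K) (d : ℕ) (hd : 1 ≤ d) (hG : G.IsHomogeneous d)
    (h : ∀ (κ : Type) [Field κ] (f : K →+* κ), ∀ y : ι → κ, SingP f G y → y = 0) : Smooth G := by
  intro i
  rw [Ideal.radical_eq_sInf, Submodule.mem_sInf]
  rintro P ⟨hP, hPp⟩
  let A := MvPolynomial ι K ⧸ P
  have : IsDomain A := Ideal.Quotient.isDomain P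
  let g : MvPolynomial ι K →+* FractionRing A :=
    (algebraMap A (FractionRing A)).comp (Ideal.Quotient.mk P)
  have hg : ∀ p, g p = 0 ↔ p ∈ P := by
    intro p
    change algebraMap A (FractionRing A) (Ideal.Quotient.mk P p) = 0 ↔ _
    rw [map_eq_zero_iff _ (IsFractionRing.injective A (FractionRing A)),
      Ideal.Quotient.eq_zero_iff_mem]
  have hev : ∀ Q : MvPolynomial ι K, eval₂ (g.comp C) (fun i => g (X i)) Q = g Q := by
    intro Q
    rw [← coe_eval₂Hom]
    have : (eval₂Hom (g.comp C) fun i => g (X i)) = g := by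
      apply MvPolynomial.ringHom_ext
      · intro r
        simp
      · intro i
        simp
    rw [this]
  have hpd : ∀ j, pderiv j G ∈ P := fun j => hP (Ideal.subset_span ⟨j, rfl⟩)
  have hGP : G ∈ P := by
    have h1 := hG.sum_X_mul_pderiv
    have h2 : (d • G : MvPolynomial ι K) ∈ P := by
      rw [← h1]
      exact Ideal.sum_mem _ fun j _ => Ideal.mul_mem_left _ _ (hpd j)
    have h3 : G = C ((d : K)⁻¹) * (d • G) := by
      have hd0 : (d : K) ≠ 0 := Nat.cast_ne_zero.2 (by omega)
      rw [nsmul_eq_mul, ← mul_assoc, ← C_eq_coe_nat, ← C_mul, inv_mul_cancel₀ hd0, C_1, one_mul]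
    rw [h3]
    exact Ideal.mul_mem_left _ _ h2
  have h0 := h (FractionRing A) (g.comp C) (fun i => g (X i)) ⟨by rw [hev, hg]; exact hGP,
    fun j => by rw [hev, hg]; exact hpd j⟩
  have h1 := congrFun h0 i
  simp only [Pi.zero_apply] at h1
  exact (hg _).1 h1

section shift

variable {O : Type} [CommRing O] {n : ℕ}

/-- The translation of the coordinates. -/
noncomputable def shf (x : Fin (n + 2) → O) (i : Fin (n + 2)) : MvPolynomial (Fin (n + 2)) O :=
  if i = 0 then X 0 else X i + C (x i) * X 0

/-- The form in the translated coordinates. -/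
noncomputable def shG (x : Fin (n + 2) → O) (G : MvPolynomial (Fin (n + 2)) O) :
    MvPolynomial (Fin (n + 2)) O := aeval (shf x) G

theorem shG_hom (x : Fin (n + 2) → O) (G : MvPolynomial (Fin (n + 2)) O) (d : ℕ)
    (hG : G.IsHomogeneous d) : (shG x G).IsHomogeneous d := by
  have h1 : (shG x G).IsHomogeneous (1 * d) := by
    refine hG.aeval _ fun i => ?_
    unfold shf
    split_ifs
    · exact isHomogeneous_X O 0
    · refine (isHomogeneous_X O i).add ?_
      have h2 := (isHomogeneous_C (Fin (n + 2)) (x i)).mul (isHomogeneous_X O 0)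
      rwa [zero_add] at h2
  rwa [one_mul] at h1

theorem pderiv_shG (x : Fin (n + 2) → O) (G : MvPolynomial (Fin (n + 2)) O) (j : Fin (n + 2)) :
    pderiv j (shG x G) = if j = 0 then shG x (pderiv 0 G) +
      ∑ i ∈ Finset.univ.erase (0 : Fin (n + 2)), C (x i) * shG x (pderiv i G)
      else shG x (pderiv j G) := by
  unfold shG
  induction G using MvPolynomial.induction_on with
  | C a => simp
  | add p q hp hq =>
    rw [map_add, map_add, hp, hq]
    split_ifs
    · simp only [map_add, mul_add, Finset.sum_add_distrib]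
      ring
    · rw [map_add, map_add]
  | mul_X p k hp =>
    rw [map_mul, aeval_X, Derivation.leibniz, hp]
    have hs : ∀ i : Fin (n + 2), pderiv i (p * X k : MvPolynomial (Fin (n + 2)) O) =
        (if i = k then p else 0) + pderiv i p * X k := by
      intro i
      rw [Derivation.leibniz, smul_eq_mul, smul_eq_mul]
      by_cases h : i = k
      · subst h
        rw [pderiv_X_self, if_pos rfl]
        ring
      · rw [pderiv_X_of_ne (Ne.symm h), if_neg h]
        ring
    have hshf : pderiv j (shf x k) = (if j = 0 then (if k = 0 then 1 else C (x k)) else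
        if j = k then 1 else 0) := by
      unfold shf
      by_cases hk : k = 0
      · rw [if_pos hk, if_pos hk]
        by_cases hj : j = 0
        · rw [hj, pderiv_X_self, if_pos rfl]
        · rw [if_neg hj, if_neg (by rw [hk]; exact hj), pderiv_X_of_ne (Ne.symm hj)]
      · rw [if_neg hk, if_neg hk, map_add, pderiv_C_mul]
        by_cases hj : j = 0
        · rw [if_pos hj, hj, pderiv_X_self, pderiv_X_of_ne hk]
          ring
        · rw [if_neg hj, pderiv_X_of_ne (Ne.symm hj)]
          by_cases hjk : j = k
          · rw [if_pos hjk, hjk, pderiv_X_self]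
            ring
          · rw [if_neg hjk, pderiv_X_of_ne (Ne.symm hjk)]
            ring
    simp only [smul_eq_mul, hshf]
    simp only [hs, map_add, map_mul, aeval_X]
    by_cases hj : j = 0
    · rw [if_pos hj, if_pos hj, if_pos hj]
      by_cases hk : k = 0
      · rw [if_pos hk, if_pos hk.symm]
        have h1 : ∑ i ∈ Finset.univ.erase (0 : Fin (n + 2)),
            C (x i) * (aeval (shf x) (if i = k then p else 0) +
              aeval (shf x) (pderiv i p) * shf x k) =
            (∑ i ∈ Finset.univ.erase (0 : Fin (n + 2)), C (x i) * aeval (shf x) (pderiv i p)) *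
              shf x k := by
          rw [Finset.sum_mul]
          refine Finset.sum_congr rfl fun i hi => ?_
          rw [if_neg (by rw [hk]; exact Finset.ne_of_mem_erase hi), map_zero]
          ring
        rw [h1]
        ring
      · rw [if_neg hk, if_neg (Ne.symm hk), map_zero]
        have h1 : ∑ i ∈ Finset.univ.erase (0 : Fin (n + 2)),
            C (x i) * (aeval (shf x) (if i = k then p else 0) +
              aeval (shf x) (pderiv i p) * shf x k) =
            C (x k) * aeval (shf x) p +
            (∑ i ∈ Finset.univ.erase (0 : Fin (n + 2)), C (x i) * aeval (shf x) (pderiv i p)) *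
              shf x k := by
          simp only [mul_add, Finset.sum_add_distrib, Finset.sum_mul]
          congr 1
          · rw [Finset.sum_eq_single k]
            · rw [if_pos rfl]
            · intro i _ hi
              rw [if_neg hi, map_zero, mul_zero]
            · intro h
              exact absurd (Finset.mem_erase.2 ⟨hk, Finset.mem_univ k⟩) h
          · exact Finset.sum_congr rfl fun i _ => by ring
        rw [h1]
        ring
    · rw [if_neg hj, if_neg hj, if_neg hj]
      split_ifs
      · ring
      · rw [map_zero]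
        ring

end shift

end Pool.Agent.Run7.h802.HP
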