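import Pool.Agent.Run7.h802.HP.CaseAB

/-! Regularity on the intermediate exceptional divisors. -/

set_option autoImplicit false
set_option linter.unusedSectionVars false
set_option linter.unusedVariables false

namespace Pool.Agent.Run7.h802.HP

open Pool.Agent.H918R2.Quad Pool.Agent.TH214.RM MvPolynomial

section maps

variable {R : Type} [CommRing R] [IsDomain R] [IsDiscreteValuationRing R] {J : Type}

/-- reduction modulo the maximal ideal and the variable `some none`. -/
noncomputable def TH (R : Type) [CommRing R] [IsDomain R] [IsDiscreteValuationRing R] (J : Type) :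
    MvPolynomial (Option (Option J)) R →+* MvPolynomial (Option J) (IsLocalRing.ResidueField R) :=
  eval₂Hom (C.comp (IsLocalRing.residue R)) (fun o => match o with
    | none => X none
    | some none => 0
    | some (some j) => X (some j))

theorem TH_z : TH R J (X none) = X none := eval₂_X _ _ _
theorem TH_w : TH R J (X (some none)) = 0 := eval₂_X _ _ _
theorem TH_v (j : J) : TH R J (X (some (some j))) = X (some j) := eval₂_X _ _ _
theorem TH_C (r : R) : TH R J (C r) = C (IsLocalRing.residue R r) := eval₂_C _ _ _

theorem TH_surj : Function.Surjective (TH R J) := by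
  intro p
  induction p using MvPolynomial.induction_on with
  | C a =>
    obtain ⟨r, rfl⟩ := IsLocalRing.residue_surjective a
    exact ⟨C r, TH_C r⟩
  | add p q hp hq =>
    obtain ⟨p', rfl⟩ := hp
    obtain ⟨q', rfl⟩ := hq
    exact ⟨p' + q', map_add _ _ _⟩
  | mul_X p o hp =>
    obtain ⟨p', rfl⟩ := hp
    cases o with
    | none => exact ⟨p' * X none, by rw [map_mul, TH_z]⟩
    | some j => exact ⟨p' * X (some (some j)), by rw [map_mul, TH_v]⟩

theorem ker_TH (π : R) (hπ : Irreducible π) :
    RingHom.ker (TH R J) ≤ Ideal.span {X (some none), C π} := by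
  set I : Ideal (MvPolynomial (Option (Option J)) R) := Ideal.span {X (some none), C π} with hI
  set mk := Ideal.Quotient.mk I with hmk
  set r0 : R →+* (MvPolynomial (Option (Option J)) R ⧸ I) := mk.comp C with hr0
  have hr0m : ∀ a ∈ IsLocalRing.maximalIdeal R, r0 a = 0 := by
    intro a ha
    rw [hπ.maximalIdeal_eq, Ideal.mem_span_singleton] at ha
    obtain ⟨c, rfl⟩ := ha
    rw [map_mul]
    have : r0 π = 0 := by
      simp only [hr0, RingHom.comp_apply, hmk]
      rw [Ideal.Quotient.eq_zero_iff_mem, hI]
      exact Ideal.subset_span (by simp)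
    rw [this, zero_mul]
  set r1 : IsLocalRing.ResidueField R →+* (MvPolynomial (Option (Option J)) R ⧸ I) :=
    Ideal.Quotient.lift (IsLocalRing.maximalIdeal R) r0 hr0m with hr1
  have hr1c : ∀ a, r1 (IsLocalRing.residue R a) = mk (C a) := fun a => rfl
  set r3 : MvPolynomial (Option J) (IsLocalRing.ResidueField R) →+*
      (MvPolynomial (Option (Option J)) R ⧸ I) :=
    MvPolynomial.eval₂Hom r1 (fun o => match o with
      | none => mk (X none)
      | some j => mk (X (some (some j)))) with hr3
  have hcomp : r3.comp (TH R J) = mk := by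
    apply MvPolynomial.ringHom_ext'
    · ext a
      simp only [RingHom.comp_apply, TH_C, hr3, MvPolynomial.coe_eval₂Hom,
        MvPolynomial.eval₂_C]
      exact hr1c a
    · intro o
      rcases o with _ | _ | j
      · simp only [RingHom.comp_apply, TH_z, hr3, MvPolynomial.coe_eval₂Hom,
          MvPolynomial.eval₂_X]
      · simp only [RingHom.comp_apply, TH_w, map_zero]
        symm
        rw [hmk, Ideal.Quotient.eq_zero_iff_mem, hI]
        exact Ideal.subset_span (by simp)
      · simp only [RingHom.comp_apply, TH_v, hr3, MvPolynomial.coe_eval₂Hom,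
          MvPolynomial.eval₂_X]
  intro p hp
  rw [RingHom.mem_ker] at hp
  have h1 : mk p = 0 := by
    rw [← hcomp, RingHom.comp_apply, hp, map_zero]
  rwa [hmk, Ideal.Quotient.eq_zero_iff_mem] at h1

theorem height_ker (π : R) (hπ : Irreducible π) :
    (2 : ℕ∞) ≤ (RingHom.ker (TH R J)).height := by
  set A1 : MvPolynomial (Option (Option J)) R →+*
    MvPolynomial (Option (Option J)) (IsLocalRing.ResidueField R) :=
      MvPolynomial.map (IsLocalRing.residue R) with hA1
  set T : MvPolynomial (Option (Option J)) R →+*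
    MvPolynomial (Option J) (IsLocalRing.ResidueField R) := TH R J with hT
  have p1 : (RingHom.ker A1).IsPrime := RingHom.ker_isPrime _
  have p2 : (RingHom.ker T).IsPrime := RingHom.ker_isPrime _
  have p0 : (⊥ : Ideal (MvPolynomial (Option (Option J)) R)).IsPrime := Ideal.isPrime_bot
  have hres : IsLocalRing.residue R π = 0 := by
    rw [IsLocalRing.residue_eq_zero_iff, hπ.maximalIdeal_eq]
    exact Ideal.mem_span_singleton_self π
  have h01 : (⊥ : Ideal (MvPolynomial (Option (Option J)) R)) < RingHom.ker A1 := by
    rw [bot_lt_iff_ne_bot]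
    intro h
    have hm : C π ∈ RingHom.ker A1 := by
      rw [RingHom.mem_ker]
      simp [A1, hres]
    rw [h, Ideal.mem_bot, C_eq_zero] at hm
    exact hπ.ne_zero hm
  have hfac : ∀ p, A1 p = 0 → T p = 0 := by
    intro p hp
    have h2 : ((aeval (fun o : Option (Option J) => match o with
        | none => X none
        | some none => 0
        | some (some j) => X (some j)) :
          MvPolynomial (Option (Option J)) (IsLocalRing.ResidueField R)
            →ₐ[IsLocalRing.ResidueField R]
            MvPolynomial (Option J) (IsLocalRing.ResidueField R)) :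
          MvPolynomial (Option (Option J)) (IsLocalRing.ResidueField R) →+*
            MvPolynomial (Option J) (IsLocalRing.ResidueField R)).comp A1 = T := by
      apply MvPolynomial.ringHom_ext'
      · ext a
        simp [A1, T, TH_C]
      · intro o
        rcases o with _ | _ | j <;> simp [A1, T, TH_z, TH_w, TH_v]
    rw [← h2, RingHom.comp_apply, hp, map_zero]
  have h12 : RingHom.ker A1 < RingHom.ker T := by
    refine lt_of_le_of_ne ?_ ?_
    · intro p hp
      exact hfac p hp
    · intro h
      have hm : (X (some none) : MvPolynomial (Option (Option J)) R) ∈ RingHom.ker T := TH_w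
      rw [← h, RingHom.mem_ker] at hm
      simp [A1] at hm
  have e1 := Ideal.height_add_one_le_of_lt_of_isPrime h01
  have e2 := Ideal.height_add_one_le_of_lt_of_isPrime h12
  have e0 : (1 : ℕ∞) ≤ (RingHom.ker A1).height := le_trans (by simp) e1
  refine le_trans ?_ e2
  calc (2 : ℕ∞) = 1 + 1 := by norm_num
    _ ≤ _ := by gcongr

end maps

section E

variable {R σ : Type} [CommRing R] [Fintype σ] [DecidableEq σ]

/-- The coordinates with the coordinate `s` equal to one. -/
noncomputable def Vc (R : Type) [CommRing R] (s i : σ) :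
    MvPolynomial (Option (Option {i : σ // i ≠ s})) R :=
  if h : i = s then 1 else X (some (some ⟨i, h⟩))

/-- The same with one variable less. -/
noncomputable def Vb (R : Type) [CommRing R] (s i : σ) :
    MvPolynomial (Option {i : σ // i ≠ s}) R :=
  if h : i = s then 1 else X (some ⟨i, h⟩)

/-- The relation between the two exceptional coordinates. -/
noncomputable def E0 (π : R) (s : σ) : MvPolynomial (Option (Option {i : σ // i ≠ s})) R :=
  X none * X (some none) - C π

/-- The equation on the intermediate exceptional divisors. -/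
noncomputable def E2 (π u : R) (l : σ → R) (q : σ → σ → R) (s : σ) (a c b : ℕ)
    (ω : MvPolynomial (Option (Option {i : σ // i ≠ s})) R) :
    MvPolynomial (Option (Option {i : σ // i ≠ s})) R :=
  C u * X (some none) ^ (2 * c + 2 + b) * X none ^ (2 * c + b) +
    X (some none) ^ (a + 2 * c + 3 + b) * X none ^ (a + 2 * c + 2 + b) *
      ∑ i, C (l i) * Vc R s i +
    ∑ i, ∑ j, C (q i j) * Vc R s i * Vc R s j + C (π ^ a) * X none * ω

theorem pderiv_Vb (s : σ) (i₀ : {i : σ // i ≠ s}) (i : σ) :
    pderiv (some i₀) (Vb R s i) = if i = i₀ then 1 else 0 := by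
  unfold Vb
  by_cases h : i = s
  · rw [dif_pos h, if_neg (by rintro rfl; exact i₀.2 h), pderiv_one]
  · rw [dif_neg h]
    by_cases h2 : i = i₀
    · subst h2
      rw [if_pos rfl]
      exact pderiv_X_self _
    · rw [if_neg h2, pderiv_X_of_ne]
      intro h3
      exact h2 (congrArg Subtype.val (Option.some.inj h3))

theorem pderiv_quad (q : σ → σ → R) (s : σ) (i₀ : {i : σ // i ≠ s}) :
    pderiv (some i₀) (∑ i, ∑ j, C (q i j) * Vb R s i * Vb R s j) =
      ∑ i, C (q i i₀ + q i₀ i) * Vb R s i := by
  simp only [map_sum, Derivation.leibniz, smul_eq_mul, pderiv_Vb, pderiv_C, mul_zero, add_zero]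
  simp only [mul_ite, mul_one, mul_zero, Finset.sum_add_distrib, Finset.sum_ite_eq',
    Finset.mem_univ, if_true]
  have h1 : (∑ i : σ, ∑ i_1 : σ, if i = i₀ then Vb R s i_1 * C (q i i_1) else 0) =
      ∑ i, Vb R s i * C (q i₀ i) := by
    rw [Finset.sum_eq_single (i₀ : σ)]
    · simp
    · intro b _ hb
      simp [hb]
    · intro h
      exact absurd (Finset.mem_univ _) h
  rw [h1, ← Finset.sum_add_distrib]
  refine Finset.sum_congr rfl fun i _ => ?_
  rw [C_add]
  ring

end E

theorem euler_quad {B σ : Type} [CommRing B] [Fintype σ] (q : σ → σ → B) (V : σ → B) :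
    ∑ i₀, V i₀ * ∑ i, (q i i₀ + q i₀ i) * V i = 2 * ∑ i, ∑ j, q i j * V i * V j := by
  have h1 : ∑ i₀, V i₀ * ∑ i, (q i i₀ + q i₀ i) * V i =
      ∑ i₀, ∑ i, q i i₀ * V i * V i₀ + ∑ i₀, ∑ i, q i₀ i * V i₀ * V i := by
    rw [← Finset.sum_add_distrib]
    refine Finset.sum_congr rfl fun i₀ _ => ?_
    rw [Finset.mul_sum, ← Finset.sum_add_distrib]
    exact Finset.sum_congr rfl fun i _ => by ring
  rw [h1, Finset.sum_comm, two_mul]

theorem deriv_sq {C₀ B : Type} [CommRing B] [CommRing C₀] [Algebra B C₀] (D : Derivation B C₀ C₀)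
    (Q : Ideal C₀) (y : C₀) (hy : y ∈ Q ^ 2) : D y ∈ Q := by
  rw [pow_two] at hy
  refine Submodule.mul_induction_on hy ?_ ?_
  · intro a ha c hc
    rw [Derivation.leibniz, smul_eq_mul, smul_eq_mul]
    exact Ideal.add_mem _ (Ideal.mul_mem_right _ _ ha) (Ideal.mul_mem_right _ _ hc)
  · intro a c ha hc
    rw [map_add]
    exact Ideal.add_mem _ ha hc

theorem regB2 {R σ A : Type} [CommRing R] [IsDomain R] [IsDiscreteValuationRing R] [Fintype σ]
    [DecidableEq σ] [CommRing A] (π u : R) (hπ : Irreducible π) (l : σ → R) (q : σ → σ → R)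
    (hq : IsUnit (Matrix.det (Matrix.of fun i j => q i j + q j i))) (s : σ) (a c b : ℕ)
    (ω : MvPolynomial (Option (Option {i : σ // i ≠ s})) R)
    (pr : MvPolynomial (Option (Option {i : σ // i ≠ s})) R →+* A) (hpr : Function.Surjective pr)
    (hker : RingHom.ker pr = Ideal.span {E0 π s, E2 π u l q s a c b ω})
    (Q : Ideal A) [Q.IsPrime] (hw : pr (X (some none)) ∈ Q) (hz : a = 0 → pr (X none) ∈ Q) :
    IsRegularLocalRing (Localization.AtPrime Q) := by
  classical
  set θ := TH R {i : σ // i ≠ s} with hθ
  have hpr0 : pr (E0 π s) = 0 := by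
    rw [← RingHom.mem_ker, hker]; exact Ideal.subset_span (by simp)
  have hpr2 : pr (E2 π u l q s a c b ω) = 0 := by
    rw [← RingHom.mem_ker, hker]; exact Ideal.subset_span (by simp)
  have hpi : pr (C π) = pr (X none) * pr (X (some none)) := by
    have := hpr0
    rw [E0, map_sub, sub_eq_zero, map_mul] at this
    exact this.symm
  have hres : IsLocalRing.residue R π = 0 := by
    rw [IsLocalRing.residue_eq_zero_iff, hπ.maximalIdeal_eq]
    exact Ideal.mem_span_singleton_self π
  have hspan : ∀ x ∈ RingHom.ker θ, pr x ∈ Ideal.span {pr (X (some none))} := by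
    intro x hx
    have h1 := ker_TH π hπ hx
    have h2 : Ideal.span {X (some none), C π} ≤
        (Ideal.span {pr (X (some none))}).comap pr := by
      rw [Ideal.span_le]
      rintro y (rfl | rfl)
      · exact Ideal.mem_span_singleton_self _
      · rw [SetLike.mem_coe, Ideal.mem_comap, hpi]
        exact Ideal.mul_mem_left _ _ (Ideal.mem_span_singleton_self _)
    exact h2 h1
  have hkerθ : RingHom.ker θ ≤ Q.comap pr := by
    intro x hx
    rw [Ideal.mem_comap]
    have h1 := hspan x hx
    have h2 : Ideal.span {pr (X (some none))} ≤ Q := by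
      rw [Ideal.span_le]
      rintro y rfl
      exact hw
    exact h2 h1
  have hV : ∀ i, θ (Vc R s i) = Vb (IsLocalRing.ResidueField R) s i := by
    intro i
    unfold Vc Vb
    split_ifs with h
    · rw [map_one]
    · exact TH_v _
  have hTE : θ (E2 π u l q s a c b ω) =
      ∑ i, ∑ j, C (IsLocalRing.residue R (q i j)) * Vb (IsLocalRing.ResidueField R) s i *
        Vb (IsLocalRing.ResidueField R) s j + C (IsLocalRing.residue R π ^ a) * X none * θ ω := by
    unfold E2
    simp only [map_add, map_mul, map_sum, map_pow, hV]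
    simp only [hθ, TH_C, TH_z, TH_w, map_pow]
    rw [zero_pow (by omega), zero_pow (by omega)]
    ring
  have hmp : ((Q.comap pr).map θ).IsPrime := Ideal.map_isPrime_of_surjective TH_surj hkerθ
  set QC := (Q.comap pr).map θ with hQC
  have hθQ : ∀ y, pr y ∈ Q → θ y ∈ QC := fun y hy => Ideal.mem_map_of_mem _ hy
  have hEQ : θ (E2 π u l q s a c b ω) ∈ QC := hθQ _ (by rw [hpr2]; exact Q.zero_mem)
  -- the last term is in the prime
  have hlast : ∀ y : MvPolynomial (Option {i : σ // i ≠ s}) (IsLocalRing.ResidueField R),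
      C (IsLocalRing.residue R π ^ a) * X none * y ∈ QC := by
    intro y
    by_cases ha : a = 0
    · have h1 : (X none : MvPolynomial (Option {i : σ // i ≠ s}) (IsLocalRing.ResidueField R)) ∈
          QC := by
        have h2 := hθQ _ (hz ha)
        rwa [hθ, TH_z] at h2
      exact Ideal.mul_mem_right _ _ (Ideal.mul_mem_left _ _ h1)
    · rw [hres, zero_pow ha, C_0, zero_mul, zero_mul]
      exact QC.zero_mem
  have hder : ∀ i₀ : {i : σ // i ≠ s}, pderiv (some i₀) (θ (E2 π u l q s a c b ω)) =
      ∑ i, C (IsLocalRing.residue R (q i i₀) + IsLocalRing.residue R (q i₀ i)) *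
        Vb (IsLocalRing.ResidueField R) s i +
        C (IsLocalRing.residue R π ^ a) * X none * pderiv (some i₀) (θ ω) := by
    intro i₀
    rw [hTE, map_add, pderiv_quad (fun i j => IsLocalRing.residue R (q i j)) s i₀]
    congr 1
    rw [mul_assoc, pderiv_C_mul, Derivation.leibniz, pderiv_X_of_ne (by simp), smul_zero, add_zero,
      smul_eq_mul, mul_assoc]
  have hex : ∃ i₀ : {i : σ // i ≠ s}, pderiv (some i₀) (θ (E2 π u l q s a c b ω)) ∉ QC := by
    by_contra hcon
    push Not at hcon
    have hrow : ∀ i₀ : σ, i₀ ≠ s →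
        ∑ i, C (IsLocalRing.residue R (q i i₀) + IsLocalRing.residue R (q i₀ i)) *
        Vb (IsLocalRing.ResidueField R) s i ∈ QC := by
      intro i₀ hi₀
      have h1 := hcon ⟨i₀, hi₀⟩
      rw [hder] at h1
      have h2 := QC.sub_mem h1 (hlast (pderiv (some ⟨i₀, hi₀⟩) (θ ω)))
      rwa [add_sub_cancel_right] at h2
    have hquad : ∑ i, ∑ j, C (IsLocalRing.residue R (q i j)) *
        Vb (IsLocalRing.ResidueField R) s i * Vb (IsLocalRing.ResidueField R) s j ∈ QC := by
      have h2 := QC.sub_mem hEQ (hlast (θ ω))
      rw [hTE, add_sub_cancel_right] at h2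
      exact h2
    have heuler : ∑ i₀, Vb (IsLocalRing.ResidueField R) s i₀ *
        ∑ i, C (IsLocalRing.residue R (q i i₀) + IsLocalRing.residue R (q i₀ i)) *
          Vb (IsLocalRing.ResidueField R) s i =
        2 * ∑ i, ∑ j, C (IsLocalRing.residue R (q i j)) *
        Vb (IsLocalRing.ResidueField R) s i * Vb (IsLocalRing.ResidueField R) s j := by
      have h1 := euler_quad (fun i j => (C (IsLocalRing.residue R (q i j)) :
        MvPolynomial (Option {i : σ // i ≠ s}) (IsLocalRing.ResidueField R)))
        (Vb (IsLocalRing.ResidueField R) s)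
      simp only [C_add]
      exact h1
    have hs : Vb (IsLocalRing.ResidueField R) s s = 1 := by
      unfold Vb
      rw [dif_pos rfl]
    have hrows : ∀ i₀ : σ,
        ∑ i, C (IsLocalRing.residue R (q i i₀) + IsLocalRing.residue R (q i₀ i)) *
        Vb (IsLocalRing.ResidueField R) s i ∈ QC := by
      intro i₀
      by_cases hi₀ : i₀ = s
      · subst hi₀
        have h1 := heuler
        rw [← Finset.add_sum_erase _ _ (Finset.mem_univ i₀), hs, one_mul] at h1
        rw [eq_sub_of_add_eq h1]
        refine QC.sub_mem (QC.mul_mem_left _ hquad) (QC.sum_mem fun i hi => ?_)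
        exact QC.mul_mem_left _ (hrow i (Finset.ne_of_mem_erase hi))
      · exact hrow i₀ hi₀
    have h1 := nondeg (W := MvPolynomial (Option {i : σ // i ≠ s}) (IsLocalRing.ResidueField R))
      (Matrix.of fun i j => q i j + q j i) hq QC (Vb (IsLocalRing.ResidueField R) s) (by
        intro j
        have h2 := hrows j
        have h3 : ∀ i, algebraMap R (MvPolynomial (Option {i : σ // i ≠ s})
            (IsLocalRing.ResidueField R)) (Matrix.of (fun i j => q i j + q j i) i j) =
            C (IsLocalRing.residue R (q i j) + IsLocalRing.residue R (q j i)) := by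
          intro i
          rw [Matrix.of_apply, ← map_add]
          rfl
        simp only [h3]
        exact h2) s
    rw [hs] at h1
    exact hmp.ne_top ((Ideal.eq_top_iff_one _).2 h1)
  obtain ⟨i₀, hi₀⟩ := hex
  refine reg_crit_one pr hpr {E0 π s, E2 π u l q s a c b ω} ?_ Q θ TH_surj hkerθ {X (some none)}
    ?_ ?_ (E2 π u l q s a c b ω) hpr2 ?_ ?_
  · rw [hker]
    congr 1
    simp
  · intro x hx
    rw [Finset.mem_singleton] at hx
    rw [hx]
    exact hw
  · intro x hx
    refine ⟨1, ?_, ?_⟩
    · rw [map_one]
      intro h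
      exact Ideal.IsPrime.ne_top ‹_› ((Ideal.eq_top_iff_one Q).2 h)
    · rw [one_mul, Finset.coe_singleton, Set.image_singleton]
      exact hspan x hx
  · intro y hy hyE
    have h1 := deriv_sq (pderiv (some i₀)) _ _ hyE
    rw [Derivation.leibniz, smul_eq_mul, smul_eq_mul] at h1
    have h2 := Ideal.sub_mem _ h1 (Ideal.mul_mem_right
      (pderiv (some i₀) y) _ hEQ)
    rw [add_sub_cancel_right] at h2
    exact (hmp.mem_or_mem h2).elim hy hi₀
  · have h3 := height_ker (J := {i : σ // i ≠ s}) π hπ
    have hc : ({X (some none)} : Finset (MvPolynomial (Option (Option {i : σ // i ≠ s})) R)).card +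
        ({E0 π s, E2 π u l q s a c b ω} :
          Finset (MvPolynomial (Option (Option {i : σ // i ≠ s})) R)).card ≤ 3 := by
      have := Finset.card_le_two (a := E0 π s) (b := E2 π u l q s a c b ω)
      rw [Finset.card_singleton]
      omega
    calc _ ≤ ((3 : ℕ) : ℕ∞) := by exact_mod_cast hc
      _ = 2 + 1 := by norm_num
      _ ≤ _ := by gcongr

end Pool.Agent.Run7.h802.HP
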